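import Pool.Agent.Q80.TM.Hol

/-!
The limits of the normalised shifted moments.
-/

set_option autoImplicit false

open Complex Filter Topology Set MeasureTheory Metric ComplexConjugate
open scoped ENNReal

namespace Pool.Agent.Q80.TM

open Q97.MM Pool.Agent.Q80.ZM

section seq

variable {k : ℕ} {T U : ℕ → ℝ}

theorem seq_ev {p : ℝ → ℝ → Prop} (hp : ∀ᶠ T : ℝ in atTop, ∀ U : ℝ, Adm T U → p T U)
    (hT : Tendsto T atTop atTop) (hU : ∀ j, 1 ≤ U j ∧ U j ≤ T j / Real.log (T j)) :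
    ∀ᶠ j in atTop, p (T j) (U j) := by
  filter_upwards [hT.eventually hp, seq_adm hT hU] with j h1 h2
  exact h1 _ h2

/-- the normalised shifted moments -/
noncomputable def hs (k : ℕ) (T U : ℕ → ℝ) (j : ℕ) (y : Fin k ⊕ Fin k → ℂ) : ℂ :=
  SS k (T j) (U j) y / (JJ k (T j) (U j) (1 / 2) : ℂ)

theorem hs_gd (hk : 1 ≤ k) (hT : Tendsto T atTop atTop)
    (hU : ∀ j, 1 ≤ U j ∧ U j ≤ T j / Real.log (T j)) : Gd (hs k T U) := by
  intro R hR
  obtain ⟨C, hC, hC'⟩ := SS_good hk hR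
  refine ⟨C, ?_⟩
  filter_upwards [seq_ev hC' hT hU, seq_ev (JJ_pos k) hT hU] with j h1 h2
  have hd : DifferentiableOn ℂ (fun y => SS k (T j) (U j) y / (JJ k (T j) (U j) (1 / 2) : ℂ))
      (ball 0 R) := by
    simp only [div_eq_mul_inv]
    exact h1.1.mul (differentiableOn_const _)
  refine ⟨hd, fun y hy => ?_⟩
  unfold hs
  rw [norm_div, Complex.norm_real, Real.norm_of_nonneg h2.le, div_le_iff₀ h2]
  exact h1.2 y hy

/-- a difference which is small compared with the moment -/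
theorem diff_lim (hT : Tendsto T atTop atTop)
    (hU : ∀ j, 1 ≤ U j ∧ U j ≤ T j / Real.log (T j)) {f : ℝ → ℝ → ℂ}
    (hf : ∀ ε : ℝ, 0 < ε → ∀ᶠ T : ℝ in atTop, ∀ U : ℝ, Adm T U →
      ‖f T U‖ ≤ ε * JJ k T U (1 / 2)) :
    Tendsto (fun j => f (T j) (U j) / (JJ k (T j) (U j) (1 / 2) : ℂ)) atTop (𝓝 0) := by
  rw [Metric.tendsto_nhds]
  intro ε hε
  filter_upwards [seq_ev (hf (ε / 2) (half_pos hε)) hT hU, seq_ev (JJ_pos k) hT hU] with j h1 h2
  rw [dist_zero_right, norm_div, Complex.norm_real, Real.norm_of_nonneg h2.le, div_lt_iff₀ h2]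
  nlinarith

theorem SS_zero (T U : ℝ) : SS k T U 0 = (JJ k T U (1 / 2) : ℂ) := by
  unfold SS JJ
  rw [← integral_complex_ofReal]
  refine integral_congr_ae (Eventually.of_forall fun t => ?_)
  have e1 : zp T t 0 = riemannZeta (((1 / 2 : ℝ) : ℂ) + t * I) := by
    unfold zp
    rw [zero_div, add_zero]
    push_cast
    rfl
  have e2 : zm T t 0 = conj (zp T t 0) := by rw [zm_conj, map_zero]
  show ff k T t 0 * _ = _
  unfold ff
  simp only [Pi.zero_apply, e2, Finset.prod_const, Finset.card_univ, Fintype.card_fin]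
  rw [← mul_pow, Complex.mul_conj, Complex.normSq_eq_norm_sq, e1]
  push_cast
  rw [← pow_mul]

theorem ff_trans (T t c : ℝ) (y : Fin k ⊕ Fin k → ℂ) :
    ff k T t (fun i => y i + (c : ℂ)) = ff k T (t + c / Real.log T) y := by
  have e : ∀ z : ℂ, (t : ℂ) + (z + c) / Real.log T = ((t + c / Real.log T : ℝ) : ℂ) +
      z / Real.log T := by
    intro z
    push_cast
    ring
  unfold ff zp zm
  simp only [e]

/-- translations -/
theorem SS_trans (hk : 1 ≤ k) (c : ℝ) (y : Fin k ⊕ Fin k → ℂ) {ε : ℝ} (hε : 0 < ε) :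
    ∀ᶠ T : ℝ in atTop, ∀ U : ℝ, Adm T U →
      ‖SS k T U (fun i => y i + (c : ℂ)) - SS k T U y‖ ≤ ε * JJ k T U (1 / 2) := by
  set A := ‖y‖ + 1 with hA
  have hA0 : 0 < A := by positivity
  have hy : ∀ i, ‖y i‖ ≤ A := fun i => (norm_le_pi_norm y i).trans (by linarith)
  obtain ⟨C', hC', hev⟩ := ev k hA0
  filter_upwards [hev, shift k hA0 c (4 * k) (C₀ := 720 ^ (2 * k)) (by positivity) hε]
    with T h2 h3 U h
  obtain ⟨hr, hL, hJ, hi, hI⟩ := h2 U h
  have hL1 := h.log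
  have key := h3 U h (fun t => ff k T t y) (ff_cont k hL1 hr hy)
    (fun t => ff_poly k hL1 hr hy) (fun t => ff_bd hk hA0 h hr hL t hy)
  unfold SS
  simp only [ff_trans]
  exact key

theorem ff_conj (T t : ℝ) (y : Fin k ⊕ Fin k → ℂ) :
    conj (ff k T t y) = ff k T t (fun i => conj (y (Sum.swap i))) := by
  unfold ff
  rw [map_mul, map_prod, map_prod]
  simp only [Sum.swap_inl, Sum.swap_inr, zm_conj, Complex.conj_conj]
  ring

theorem SS_conj (T U : ℝ) (y : Fin k ⊕ Fin k → ℂ) :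
    conj (SS k T U y) = SS k T U (fun i => conj (y (Sum.swap i))) := by
  unfold SS
  rw [← integral_conj]
  refine integral_congr_ae (Eventually.of_forall fun t => ?_)
  show conj (ff k T t y * (wt T U t : ℂ)) = _
  rw [map_mul, ff_conj, Complex.conj_ofReal]

/-- the Hermitian form -/
theorem SS_psd (hk : 1 ≤ k) {n : ℕ} (x : Fin n → Fin k → ℝ) (c : Fin n → ℂ) :
    ∀ᶠ T : ℝ in atTop, ∀ U : ℝ, Adm T U → 0 ≤ (∑ a, ∑ b, c a * conj (c b) *
      SS k T U (Sum.elim (fun i => (x a i : ℂ)) (fun i => (x b i : ℂ)))).re ∧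
      (∑ a, ∑ b, c a * conj (c b) *
      SS k T U (Sum.elim (fun i => (x a i : ℂ)) (fun i => (x b i : ℂ)))).im = 0 := by
  set y : Fin n → Fin n → (Fin k ⊕ Fin k → ℂ) := fun a b =>
    Sum.elim (fun i => (x a i : ℂ)) (fun i => (x b i : ℂ)) with hyd
  set A := (∑ a, ∑ b, ‖y a b‖) + 1 with hA
  have hA0 : 0 < A := by positivity
  have hy : ∀ a b i, ‖y a b i‖ ≤ A := by
    intro a b i
    refine (norm_le_pi_norm (y a b) i).trans ?_
    have h1 : ‖y a b‖ ≤ ∑ b, ‖y a b‖ :=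
      Finset.single_le_sum (f := fun b => ‖y a b‖) (fun _ _ => norm_nonneg _) (Finset.mem_univ b)
    have h2 : ∑ b, ‖y a b‖ ≤ ∑ a, ∑ b, ‖y a b‖ :=
      Finset.single_le_sum (f := fun a => ∑ b, ‖y a b‖) (fun _ _ => by positivity)
        (Finset.mem_univ a)
    linarith
  obtain ⟨C', hC', hev⟩ := ev k hA0
  filter_upwards [hev] with T h2 U h
  obtain ⟨hr, hL, hJ, hi, hI⟩ := h2 U h
  have hint : ∀ a b, Integrable (fun t => ff k T t (y a b) * (wt T U t : ℂ)) := fun a b =>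
    SS_int hk hA0 h hr hL hi (hy a b)
  set P : Fin n → ℝ → ℂ := fun a t => ∏ i, zp T t (x a i) with hP
  have hff : ∀ a b t, ff k T t (y a b) = P a t * conj (P b t) := by
    intro a b t
    unfold ff
    simp only [hyd, hP, Sum.elim_inl, Sum.elim_inr, map_prod, zm_conj, Complex.conj_ofReal]
  have e1 : (∑ a, ∑ b, c a * conj (c b) * SS k T U (y a b)) =
      ((∫ t, ‖∑ a, c a * P a t‖ ^ 2 * wt T U t : ℝ) : ℂ) := by
    rw [← integral_complex_ofReal]
    have e2 : ∀ a b, c a * conj (c b) * SS k T U (y a b) =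
        ∫ t, c a * conj (c b) * (ff k T t (y a b) * (wt T U t : ℂ)) := fun a b => by
      rw [integral_const_mul]; rfl
    simp only [e2]
    have e3 : ∀ a, ∑ b, ∫ t, c a * conj (c b) * (ff k T t (y a b) * (wt T U t : ℂ)) =
        ∫ t, ∑ b, c a * conj (c b) * (ff k T t (y a b) * (wt T U t : ℂ)) := fun a =>
      (integral_finsetSum _ fun b _ => (hint a b).const_mul _).symm
    simp only [e3]
    rw [← integral_finsetSum _ fun a _ =>
      integrable_finsetSum _ fun b _ => (hint a b).const_mul _]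
    refine integral_congr_ae (Eventually.of_forall fun t => ?_)
    show _ = ((‖∑ a, c a * P a t‖ ^ 2 * wt T U t : ℝ) : ℂ)
    push_cast
    rw [← Complex.mul_conj', map_sum, Finset.sum_mul_sum, Finset.sum_mul]
    refine Finset.sum_congr rfl fun a _ => ?_
    rw [Finset.sum_mul]
    refine Finset.sum_congr rfl fun b _ => ?_
    rw [hff, map_mul]
    ring
  rw [e1, Complex.ofReal_re, Complex.ofReal_im]
  exact ⟨integral_nonneg fun t => mul_nonneg (by positivity) (wt_pos _ _ _).le, rfl⟩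

end seq

theorem acc_real : AccPt (0 : ℂ) (𝓟 (range ((↑) : ℝ → ℂ))) := by
  rw [accPt_iff_frequently_nhdsNE]
  have h1 : Tendsto (fun n : ℕ => ((1 / ((n : ℝ) + 1) : ℝ) : ℂ)) atTop (𝓝[≠] 0) := by
    rw [tendsto_nhdsWithin_iff]
    constructor
    · have := tendsto_one_div_add_atTop_nhds_zero_nat (𝕜 := ℝ)
      exact_mod_cast (Complex.continuous_ofReal.tendsto 0).comp this
    · refine Eventually.of_forall fun n => ?_
      rw [mem_compl_singleton_iff]
      have : (1 / ((n : ℝ) + 1) : ℝ) ≠ 0 := by positivity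
      exact_mod_cast this
  exact h1.frequently (Frequently.of_forall fun n => ⟨_, rfl⟩)

/-- the normalisation by Hardy's function -/
noncomputable def Ps {k : ℕ} (Φ : (Fin k ⊕ Fin k → ℂ) → ℂ) (y : Fin k ⊕ Fin k → ℂ) : ℂ :=
  cexp (I / 2 * ((∑ i, y (Sum.inl i)) - ∑ i, y (Sum.inr i))) * Φ y

section lim

variable {k : ℕ} {T U : ℕ → ℝ} {Φ : (Fin k ⊕ Fin k → ℂ) → ℂ}

theorem Ps_symm (hk : 1 ≤ k) (hT : Tendsto T atTop atTop)
    (hU : ∀ j, 1 ≤ U j ∧ U j ≤ T j / Real.log (T j))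
    (hΦ : ∀ y, Tendsto (fun j => hs k T U j y) atTop (𝓝 (Φ y)))
    (σ : Equiv.Perm (Fin k ⊕ Fin k)) (y : Fin k ⊕ Fin k → ℂ) : Ps Φ (y ∘ σ) = Ps Φ y := by
  have h1 : ∀ y : Fin k ⊕ Fin k → ℂ, Tendsto (fun j => SO k (T j) (U j) y /
      (JJ k (T j) (U j) (1 / 2) : ℂ)) atTop (𝓝 (cexp (-(I * ∑ i, y (Sum.inr i))) * Φ y)) := by
    intro y
    have h2 := diff_lim hT hU (f := fun T U => SS k T U y - cexp (I * ∑ i, y (Sum.inr i)) *
      SO k T U y) (fun ε hε => SS_SO hk y hε)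
    have h3 := ((hΦ y).sub h2).const_mul (cexp (-(I * ∑ i, y (Sum.inr i))))
    rw [sub_zero] at h3
    refine h3.congr fun j => ?_
    have e : cexp (-(I * ∑ i, y (Sum.inr i))) * cexp (I * ∑ i, y (Sum.inr i)) = 1 := by
      rw [← Complex.exp_add, neg_add_cancel, Complex.exp_zero]
    unfold hs
    linear_combination (SO k (T j) (U j) y / (JJ k (T j) (U j) (1 / 2) : ℂ)) * e
  have h2 := h1 (y ∘ σ)
  simp only [SO_perm] at h2
  have h3 := tendsto_nhds_unique h2 (h1 y)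
  have hsum : ∀ y : Fin k ⊕ Fin k → ℂ, cexp (I / 2 * ((∑ i, y (Sum.inl i)) -
      ∑ i, y (Sum.inr i))) = cexp (I / 2 * ∑ i, y i) * cexp (-(I * ∑ i, y (Sum.inr i))) := by
    intro y
    rw [← Complex.exp_add, Fintype.sum_sum_type]
    congr 1
    ring
  unfold Ps
  rw [hsum, hsum, mul_assoc, mul_assoc, h3, show (∑ i, (y ∘ σ) i) = ∑ i, y i from
    Equiv.sum_comp σ y]

theorem Ps_trans_real (hk : 1 ≤ k) (hT : Tendsto T atTop atTop)
    (hU : ∀ j, 1 ≤ U j ∧ U j ≤ T j / Real.log (T j))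
    (hΦ : ∀ y, Tendsto (fun j => hs k T U j y) atTop (𝓝 (Φ y)))
    (c : ℝ) (y : Fin k ⊕ Fin k → ℂ) : Φ (fun i => y i + c) = Φ y := by
  have h2 := diff_lim hT hU (f := fun T U => SS k T U (fun i => y i + (c : ℂ)) - SS k T U y)
    (fun ε hε => SS_trans hk c y hε)
  have h3 := (hΦ (fun i => y i + (c : ℂ))).sub (hΦ y)
  have h4 : Tendsto (fun j => hs k T U j (fun i => y i + (c : ℂ)) - hs k T U j y) atTop (𝓝 0) := by
    refine h2.congr fun j => ?_
    unfold hs
    rw [sub_div]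
  have := tendsto_nhds_unique h3 h4
  exact sub_eq_zero.1 this

theorem Ps_trans (hk : 1 ≤ k) (hT : Tendsto T atTop atTop)
    (hU : ∀ j, 1 ≤ U j ∧ U j ≤ T j / Real.log (T j)) (hd : Differentiable ℂ Φ)
    (hΦ : ∀ y, Tendsto (fun j => hs k T U j y) atTop (𝓝 (Φ y)))
    (c : ℂ) (y : Fin k ⊕ Fin k → ℂ) : Ps Φ (fun i => y i + c) = Ps Φ y := by
  have h1 : Φ (fun i => y i + c) = Φ y := by
    have hg : Differentiable ℂ (fun c : ℂ => Φ (fun i => y i + c) - Φ y) := by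
      refine Differentiable.sub_const ?_ _
      refine hd.comp ?_
      rw [differentiable_pi]
      intro i
      fun_prop
    have h2 := Dt.of_acc acc_real _ hg (by
      rintro _ ⟨c, rfl⟩
      rw [Ps_trans_real hk hT hU hΦ c y, sub_self]) c
    exact sub_eq_zero.1 h2
  unfold Ps
  rw [h1]
  congr 2
  simp only [Finset.sum_add_distrib]
  ring

theorem Ps_conj (hk : 1 ≤ k) (hT : Tendsto T atTop atTop)
    (hU : ∀ j, 1 ≤ U j ∧ U j ≤ T j / Real.log (T j))
    (hΦ : ∀ y, Tendsto (fun j => hs k T U j y) atTop (𝓝 (Φ y)))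
    (y : Fin k ⊕ Fin k → ℂ) : Ps Φ (fun i => conj (y i)) = conj (Ps Φ y) := by
  have h1 : conj (Φ y) = Φ (fun i => conj (y (Sum.swap i))) := by
    have h2 := (Complex.continuous_conj.tendsto _).comp (hΦ y)
    refine tendsto_nhds_unique h2 ((hΦ _).congr fun j => ?_)
    show hs k T U j (fun i => conj (y (Sum.swap i))) = conj (hs k T U j y)
    unfold hs
    rw [map_div₀, Complex.conj_ofReal, SS_conj]
  have h2 := Ps_symm hk hT hU hΦ (Equiv.sumComm (Fin k) (Fin k)) (fun i => conj (y i))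
  rw [← h2]
  unfold Ps
  rw [map_mul, h1, ← Complex.exp_conj]
  congr 2
  simp only [map_mul, map_sub, map_sum, map_div₀, Complex.conj_I, Function.comp,
    Equiv.sumComm_apply, Sum.swap_inl, Sum.swap_inr, map_ofNat]
  ring

theorem Ps_bound (hk : 1 ≤ k) (hT : Tendsto T atTop atTop)
    (hU : ∀ j, 1 ≤ U j ∧ U j ≤ T j / Real.log (T j))
    (hΦ : ∀ y, Tendsto (fun j => hs k T U j y) atTop (𝓝 (Φ y)))
    (y : Fin k ⊕ Fin k → ℂ) : ‖Ps Φ y‖ ≤ ∏ i, Real.cosh (k * (y i).im) ^ (1 / (2 * k : ℝ)) := by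
  have hk0 : (0 : ℝ) < k := by exact_mod_cast hk
  have hp0 : 0 < 1 / (2 * k : ℝ) := by positivity
  have h1 : ∀ ε : ℝ, 0 < ε → ‖Φ y‖ ≤
      ∏ i, (Real.exp (k * si y i) * Real.cosh (k * si y i) + ε) ^ (1 / (2 * k : ℝ)) := by
    intro ε hε
    refine le_of_tendsto (hΦ y).norm ?_
    filter_upwards [seq_ev (SS_holder hk y hε) hT hU, seq_ev (JJ_pos k) hT hU] with j h2 h3
    unfold hs
    rw [norm_div, Complex.norm_real, Real.norm_of_nonneg h3.le, div_le_iff₀ h3]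
    exact h2
  have hcont : Tendsto (fun ε : ℝ => ∏ i, (Real.exp (k * si y i) * Real.cosh (k * si y i) + ε) ^
      (1 / (2 * k : ℝ))) (𝓝[>] 0) (𝓝 (∏ i, (Real.exp (k * si y i) * Real.cosh (k * si y i) + 0) ^
      (1 / (2 * k : ℝ)))) := by
    refine tendsto_finsetProd _ fun i _ => ?_
    have h2 : Tendsto (fun ε : ℝ => Real.exp (k * si y i) * Real.cosh (k * si y i) + ε) (𝓝[>] 0)
        (𝓝 (Real.exp (k * si y i) * Real.cosh (k * si y i) + 0)) :=
      tendsto_const_nhds.add (tendsto_id.mono_left nhdsWithin_le_nhds)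
    exact h2.rpow_const (Or.inr hp0.le)
  have h2 : ‖Φ y‖ ≤ ∏ i, (Real.exp (k * si y i) * Real.cosh (k * si y i) + 0) ^
      (1 / (2 * k : ℝ)) := by
    refine ge_of_tendsto hcont ?_
    filter_upwards [self_mem_nhdsWithin] with ε hε using h1 ε hε
  have h3 : ∏ i, (Real.exp (k * si y i) * Real.cosh (k * si y i) + 0) ^ (1 / (2 * k : ℝ)) =
      Real.exp (∑ i, si y i / 2) * ∏ i, Real.cosh (k * (y i).im) ^ (1 / (2 * k : ℝ)) := by
    rw [Real.exp_sum, ← Finset.prod_mul_distrib]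
    refine Finset.prod_congr rfl fun i _ => ?_
    rw [add_zero, Real.mul_rpow (Real.exp_pos _).le (Real.cosh_pos _).le, ← Real.exp_mul]
    congr 1
    · congr 1
      field_simp
    · rcases i with i | i
      · rfl
      · unfold si
        rw [Sum.elim_inr, mul_neg, Real.cosh_neg]
  rw [h3] at h2
  unfold Ps
  rw [norm_mul, Complex.norm_exp]
  have e1 : (I / 2 * ((∑ i, y (Sum.inl i)) - ∑ i, y (Sum.inr i))).re = -∑ i, si y i / 2 := by
    rw [Fintype.sum_sum_type]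
    simp only [si, Sum.elim_inl, Sum.elim_inr]
    have : (I / 2 * ((∑ i, y (Sum.inl i)) - ∑ i, y (Sum.inr i))).re =
        -((∑ i, y (Sum.inl i)) - ∑ i, y (Sum.inr i)).im / 2 := by
      rw [div_mul_eq_mul_div, Complex.div_ofNat_re, Complex.I_mul_re]
    rw [this, Complex.sub_im, Complex.im_sum, Complex.im_sum, ← Finset.sum_div, ← Finset.sum_div,
      Finset.sum_neg_distrib]
    ring
  rw [e1]
  calc Real.exp (-∑ i, si y i / 2) * ‖Φ y‖ ≤ Real.exp (-∑ i, si y i / 2) *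
        (Real.exp (∑ i, si y i / 2) * ∏ i, Real.cosh (k * (y i).im) ^ (1 / (2 * k : ℝ))) := by
        gcongr
    _ = _ := by
        rw [← mul_assoc, ← Real.exp_add, neg_add_cancel, Real.exp_zero, one_mul]

theorem Ph_psd (hk : 1 ≤ k) (hT : Tendsto T atTop atTop)
    (hU : ∀ j, 1 ≤ U j ∧ U j ≤ T j / Real.log (T j))
    (hΦ : ∀ y, Tendsto (fun j => hs k T U j y) atTop (𝓝 (Φ y)))
    {n : ℕ} (x : Fin n → Fin k → ℝ) (c : Fin n → ℂ) :
    0 ≤ (∑ a, ∑ b, c a * conj (c b) *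
      Φ (Sum.elim (fun i => (x a i : ℂ)) (fun i => (x b i : ℂ)))).re ∧
    (∑ a, ∑ b, c a * conj (c b) *
      Φ (Sum.elim (fun i => (x a i : ℂ)) (fun i => (x b i : ℂ)))).im = 0 := by
  have h1 : Tendsto (fun j => ∑ a, ∑ b, c a * conj (c b) *
      hs k T U j (Sum.elim (fun i => (x a i : ℂ)) (fun i => (x b i : ℂ)))) atTop
      (𝓝 (∑ a, ∑ b, c a * conj (c b) *
        Φ (Sum.elim (fun i => (x a i : ℂ)) (fun i => (x b i : ℂ))))) :=
    tendsto_finsetSum _ fun a _ => tendsto_finsetSum _ fun b _ => (hΦ _).const_mul _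
  have h2 : ∀ᶠ j in atTop, 0 ≤ (∑ a, ∑ b, c a * conj (c b) *
      hs k T U j (Sum.elim (fun i => (x a i : ℂ)) (fun i => (x b i : ℂ)))).re ∧
      (∑ a, ∑ b, c a * conj (c b) *
      hs k T U j (Sum.elim (fun i => (x a i : ℂ)) (fun i => (x b i : ℂ)))).im = 0 := by
    filter_upwards [seq_ev (SS_psd hk x c) hT hU, seq_ev (JJ_pos k) hT hU] with j h3 h4
    have e : (∑ a, ∑ b, c a * conj (c b) *
        hs k T U j (Sum.elim (fun i => (x a i : ℂ)) (fun i => (x b i : ℂ)))) =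
        (∑ a, ∑ b, c a * conj (c b) * SS k (T j) (U j)
          (Sum.elim (fun i => (x a i : ℂ)) (fun i => (x b i : ℂ)))) /
          ((JJ k (T j) (U j) (1 / 2) : ℝ) : ℂ) := by
      rw [Finset.sum_div]
      refine Finset.sum_congr rfl fun a _ => ?_
      rw [Finset.sum_div]
      refine Finset.sum_congr rfl fun b _ => ?_
      unfold hs
      ring
    rw [e, Complex.div_ofReal_re, Complex.div_ofReal_im, h3.2, zero_div]
    exact ⟨div_nonneg h3.1 h4.le, rfl⟩
  constructor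
  · exact ge_of_tendsto ((Complex.continuous_re.tendsto _).comp h1) (h2.mono fun j hj => hj.1)
  · refine tendsto_nhds_unique ((Complex.continuous_im.tendsto _).comp h1) ?_
    refine tendsto_const_nhds.congr' ?_
    filter_upwards [h2] with j hj using hj.2.symm

end lim

end Pool.Agent.Q80.TM
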