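import Pool.Agent.Helper857.A1

/-!
Normal sequences of entire functions of several variables.
-/

set_option autoImplicit false

open Filter Topology Set Metric

namespace Pool.Agent.Q80.TM

variable {E : Type*} [NormedAddCommGroup E] [NormedSpace ℂ E] [ProperSpace E]

/-- a sequence of functions which is eventually holomorphic and bounded on every ball -/
def Gd (h : ℕ → E → ℂ) : Prop :=
  ∀ R : ℝ, 0 < R → ∃ C : ℝ, ∀ᶠ j in atTop, DifferentiableOn ℂ (h j) (ball 0 R) ∧
    ∀ y ∈ ball (0 : E) R, ‖h j y‖ ≤ C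

theorem Gd.comp {h : ℕ → E → ℂ} (H : Gd h) {φ : ℕ → ℕ} (hφ : StrictMono φ) :
    Gd (fun j => h (φ j)) := by
  intro R hR
  obtain ⟨C, hC⟩ := H R hR
  exact ⟨C, hφ.tendsto_atTop.eventually hC⟩

theorem Gd.mul {h : ℕ → E → ℂ} (H : Gd h) {r : ℕ → ℂ} {B : ℝ} (hB : ∀ j, ‖r j‖ ≤ B) :
    Gd (fun j y => r j * h j y) := by
  intro R hR
  obtain ⟨C, hC⟩ := H R hR
  refine ⟨B * |C|, ?_⟩
  filter_upwards [hC] with j hj
  refine ⟨(differentiableOn_const _).mul hj.1, fun y hy => ?_⟩
  rw [norm_mul]
  have := (norm_nonneg _).trans (hB j)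
  gcongr
  · exact hB j
  · exact (hj.2 y hy).trans (le_abs_self _)

theorem Gd.lip {h : ℕ → E → ℂ} (H : Gd h) {R : ℝ} (hR : 0 < R) :
    ∃ K : ℝ, 0 < K ∧ ∀ᶠ j in atTop, ∀ y ∈ ball (0 : E) R, ∀ z ∈ ball (0 : E) R,
      ‖h j z - h j y‖ ≤ K * ‖z - y‖ := by
  obtain ⟨C, hC⟩ := H (3 * R) (by positivity)
  refine ⟨(2 * |C| + 1) / (2 * R), by positivity, ?_⟩
  filter_upwards [hC] with j hj y hy z hz
  have hy' := mem_ball_zero_iff.1 hy
  have hz' := mem_ball_zero_iff.1 hz
  have hsub : ball y (2 * R) ⊆ ball 0 (3 * R) := by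
    intro x hx
    rw [mem_ball, dist_eq_norm] at hx
    rw [mem_ball_zero_iff]
    have := norm_add_le (x - y) y
    rw [sub_add_cancel] at this
    linarith
  have hmaps : MapsTo (h j) (ball y (2 * R)) (closedBall (h j y) (2 * |C|)) := by
    intro x hx
    rw [mem_closedBall, dist_eq_norm]
    have h1 := hj.2 x (hsub hx)
    have h2 := hj.2 y (hsub (mem_ball_self (by positivity)))
    have h3 := norm_sub_le (h j x) (h j y)
    have := le_abs_self C
    linarith
  have hzb : z ∈ ball y (2 * R) := by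
    rw [mem_ball, dist_eq_norm]
    have := norm_sub_le z y
    linarith
  have h4 := Complex.dist_le_div_mul_dist_of_mapsTo_ball (hj.1.mono hsub) hmaps hzb
  rw [dist_eq_norm, dist_eq_norm] at h4
  refine h4.trans ?_
  gcongr
  linarith

/-- pointwise limits of such sequences are entire -/
theorem Gd.entire {h : ℕ → E → ℂ} (H : Gd h) {g : E → ℂ}
    (hg : ∀ y, Tendsto (fun j => h j y) atTop (𝓝 (g y))) : Differentiable ℂ g := by
  intro z
  set R := ‖z‖ + 1 with hR
  have hR0 : 0 < R := by positivity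
  obtain ⟨K, hK, hK'⟩ := H.lip (R := R + 1) (by positivity)
  obtain ⟨C, hC⟩ := H (R + 1) (by positivity)
  obtain ⟨N, hN⟩ := eventually_atTop.1 (hK'.and hC)
  have hz : z ∈ ball (0 : E) (R + 1) := by
    rw [mem_ball_zero_iff]; linarith
  -- radius 1/ (K) ball around z
  have hlu : TendstoLocallyUniformlyOn (fun j => h (j + N)) g atTop (ball (0 : E) (R + 1)) := by
    rw [Metric.tendstoLocallyUniformlyOn_iff]
    intro ε hε x hx
    refine ⟨ball x (ε / (3 * K)) ∩ ball 0 (R + 1), mem_nhdsWithin_of_mem_nhds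
      (inter_mem (ball_mem_nhds _ (by positivity)) (isOpen_ball.mem_nhds hx)), ?_⟩
    have h1 := (Metric.tendsto_atTop.1 (hg x)) (ε / 3) (by positivity)
    obtain ⟨N', hN'⟩ := h1
    filter_upwards [eventually_ge_atTop N'] with j hj w hw
    have hLip := (hN (j + N) (by omega)).1 x hx w hw.2
    have hwe : K * ‖w - x‖ ≤ ε / 3 := by
      have := hw.1
      rw [mem_ball, dist_eq_norm] at this
      calc K * ‖w - x‖ ≤ K * (ε / (3 * K)) := by gcongr
        _ = ε / 3 := by field_simp
    have h2 : ‖g w - g x‖ ≤ ε / 3 := by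
      have h3 : Tendsto (fun j => ‖h j w - h j x‖) atTop (𝓝 ‖g w - g x‖) :=
        ((hg w).sub (hg x)).norm
      refine le_of_tendsto h3 ?_
      filter_upwards [eventually_ge_atTop N] with i hi
      exact ((hN i hi).1 x hx w hw.2).trans hwe
    have h5 := hN' (j + N) (by omega)
    rw [dist_eq_norm] at h5
    rw [dist_comm, dist_eq_norm]
    calc ‖h (j + N) w - g w‖ = ‖(h (j + N) w - h (j + N) x) + (h (j + N) x - g x) +
          -(g w - g x)‖ := by congr 1; abel
      _ ≤ ‖h (j + N) w - h (j + N) x‖ + ‖h (j + N) x - g x‖ + ‖-(g w - g x)‖ := norm_add₃_le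
      _ < ε := by rw [norm_neg]; linarith
  have hcomp := (tendstoLocallyUniformlyOn_iff_forall_isCompact isOpen_ball).1 hlu
  have hsub : closedBall z (1 / 2) ⊆ ball (0 : E) (R + 1) := by
    intro x hx
    rw [mem_closedBall, dist_eq_norm] at hx
    rw [mem_ball_zero_iff]
    have := norm_add_le (x - z) z
    rw [sub_add_cancel] at this
    linarith
  have hu2 := (hcomp _ hsub (isCompact_closedBall z (1 / 2))).mono ball_subset_closedBall
  have h2 := Pool.Agent.Helper857.differentiableOn_of_tendstoUniformlyOn_ball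
    (fun j => ((hN (j + N) (by omega)).2.1).mono (ball_subset_closedBall.trans hsub)) hu2
  exact (h2 z (mem_ball_self (by norm_num))).differentiableAt (ball_mem_nhds _ (by norm_num))

/-- Montel's theorem for such sequences -/
theorem Gd.montel {h : ℕ → E → ℂ} (H : Gd h) : ∃ φ : ℕ → ℕ, StrictMono φ ∧ ∃ g : E → ℂ,
    Differentiable ℂ g ∧ ∀ y, Tendsto (fun j => h (φ j) y) atTop (𝓝 (g y)) := by
  set d : ℕ → E := TopologicalSpace.denseSeq E with hdd
  have hdense : DenseRange d := TopologicalSpace.denseRange_denseSeq E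
  have hbd : ∀ k, ∃ C : ℝ, ∀ᶠ j in atTop, ‖h j (d k)‖ ≤ C := by
    intro k
    obtain ⟨C, hC⟩ := H (‖d k‖ + 1) (by positivity)
    refine ⟨C, ?_⟩
    filter_upwards [hC] with j hj
    exact hj.2 _ (by rw [mem_ball_zero_iff]; linarith)
  choose C hC using hbd
  classical
  set x : ℕ → ℕ → ℂ := fun j k => if ‖h j (d k)‖ ≤ C k then h j (d k) else 0 with hx
  have hcomp : IsCompact (Set.pi Set.univ fun k : ℕ => closedBall (0 : ℂ) |C k|) :=
    isCompact_univ_pi fun k => isCompact_closedBall _ _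
  have hxm : ∀ j, x j ∈ Set.pi Set.univ fun k : ℕ => closedBall (0 : ℂ) |C k| := by
    intro j k _
    simp only [hx]
    rw [mem_closedBall_zero_iff]
    split_ifs with hk
    · exact hk.trans (le_abs_self _)
    · simp
  obtain ⟨a, -, φ, hφ, hlim⟩ := hcomp.tendsto_subseq hxm
  have hk : ∀ k, Tendsto (fun j => h (φ j) (d k)) atTop (𝓝 (a k)) := by
    intro k
    have h1 : Tendsto (fun j => x (φ j) k) atTop (𝓝 (a k)) :=
      ((continuous_apply k).tendsto a).comp hlim
    refine h1.congr' ?_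
    filter_upwards [hφ.tendsto_atTop.eventually (hC k)] with j hj
    simp only [hx, if_pos hj]
  have H' := H.comp hφ
  have hex : ∀ z : E, ∃ w : ℂ, Tendsto (fun j => h (φ j) z) atTop (𝓝 w) := by
    intro z
    apply cauchySeq_tendsto_of_complete
    obtain ⟨K, hK, hL⟩ := H'.lip (R := ‖z‖ + 1) (by positivity)
    rw [Metric.cauchySeq_iff']
    intro ε hε
    obtain ⟨k, hkz⟩ : ∃ k, d k ∈ ball z (min 1 (ε / (3 * K))) :=
      hdense.exists_mem_open isOpen_ball ⟨z, mem_ball_self (by positivity)⟩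
    have hk1 : ‖d k - z‖ < 1 := by
      have := ball_subset_ball (min_le_left _ _) hkz
      rwa [mem_ball, dist_eq_norm] at this
    have hke : ‖d k - z‖ < ε / (3 * K) := by
      have := ball_subset_ball (min_le_right _ _) hkz
      rwa [mem_ball, dist_eq_norm] at this
    have hke' : K * ‖d k - z‖ < ε / 3 := by
      calc K * ‖d k - z‖ < K * (ε / (3 * K)) := by gcongr
        _ = ε / 3 := by field_simp
    have hzb : z ∈ ball (0 : E) (‖z‖ + 1) := by rw [mem_ball_zero_iff]; linarith
    have hdb : d k ∈ ball (0 : E) (‖z‖ + 1) := by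
      rw [mem_ball_zero_iff]
      have := norm_add_le (d k - z) z
      rw [sub_add_cancel] at this
      linarith
    obtain ⟨N₁, hN₁⟩ := eventually_atTop.1 hL
    obtain ⟨N₂, hN₂⟩ := (Metric.cauchySeq_iff.1 (hk k).cauchySeq) (ε / 3) (by positivity)
    refine ⟨max N₁ N₂, fun j hj => ?_⟩
    have h1 := hN₁ j ((le_max_left _ _).trans hj) z hzb (d k) hdb
    have h2 := hN₁ (max N₁ N₂) (le_max_left _ _) z hzb (d k) hdb
    have h3 := hN₂ j ((le_max_right _ _).trans hj) (max N₁ N₂) (le_max_right _ _)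
    rw [dist_eq_norm] at h3 ⊢
    calc ‖h (φ j) z - h (φ (max N₁ N₂)) z‖ = ‖-(h (φ j) (d k) - h (φ j) z) +
          (h (φ j) (d k) - h (φ (max N₁ N₂)) (d k))
          + (h (φ (max N₁ N₂)) (d k) - h (φ (max N₁ N₂)) z)‖ := by congr 1; abel
      _ ≤ ‖-(h (φ j) (d k) - h (φ j) z)‖ + ‖h (φ j) (d k) - h (φ (max N₁ N₂)) (d k)‖
          + ‖h (φ (max N₁ N₂)) (d k) - h (φ (max N₁ N₂)) z‖ := norm_add₃_le
      _ < ε := by rw [norm_neg]; linarith
  choose g hg using hex
  exact ⟨φ, hφ, g, H'.entire hg, hg⟩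

/-- a set which determines entire functions -/
def Dt (P : Set E) : Prop := ∀ g : E → ℂ, Differentiable ℂ g → (∀ y ∈ P, g y = 0) → ∀ y, g y = 0

/-- Vitali's theorem -/
theorem Gd.vitali {h : ℕ → E → ℂ} (H : Gd h) {P : Set E} (hP : Dt P)
    (hc : ∀ y ∈ P, ∃ w : ℂ, Tendsto (fun j => h j y) atTop (𝓝 w)) :
    ∃ g : E → ℂ, Differentiable ℂ g ∧ ∀ y, Tendsto (fun j => h j y) atTop (𝓝 (g y)) := by
  obtain ⟨φ, hφ, g, hg, hg'⟩ := H.montel
  refine ⟨g, hg, fun y => tendsto_of_subseq_tendsto fun ns hns => ?_⟩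
  obtain ⟨ms, hms, hmono⟩ : ∃ ms : ℕ → ℕ, StrictMono ms ∧ StrictMono (fun j => ns (ms j)) := by
    obtain ⟨ms, h1, h2⟩ := strictMono_subseq_of_tendsto_atTop hns
    exact ⟨ms, h1, h2⟩
  obtain ⟨ψ, hψ, g₂, hg₂, hg₂'⟩ := (H.comp hmono).montel
  refine ⟨fun j => ms (ψ j), ?_⟩
  have heq : ∀ z, g₂ z - g z = 0 := by
    refine hP _ (hg₂.sub hg) fun z hz => ?_
    obtain ⟨w, hw⟩ := hc z hz
    have e1 := tendsto_nhds_unique (hg' z) (hw.comp hφ.tendsto_atTop)
    have e2 := tendsto_nhds_unique (hg₂' z) (hw.comp (hmono.comp hψ).tendsto_atTop)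
    rw [e1, e2, sub_self]
  have := hg₂' y
  rwa [sub_eq_zero.1 (heq y)] at this

/-- Vitali's theorem with a known limit -/
theorem Gd.vitali_eq {h : ℕ → E → ℂ} (H : Gd h) {P : Set E} (hP : Dt P) {f : E → ℂ}
    (hf : Differentiable ℂ f) (hc : ∀ y ∈ P, Tendsto (fun j => h j y) atTop (𝓝 (f y))) (y : E) :
    Tendsto (fun j => h j y) atTop (𝓝 (f y)) := by
  obtain ⟨g, hg, hg'⟩ := H.vitali hP fun y hy => ⟨f y, hc y hy⟩
  have heq := hP _ (hg.sub hf) fun z hz => by
    have := tendsto_nhds_unique (hg' z) (hc z hz)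
    show g z - f z = 0
    rw [this, sub_self]
  have h1 := heq y
  have h2 : g y - f y = 0 := h1
  rw [← sub_eq_zero.1 h2]
  exact hg' y

/-- Vitali's theorem with unknown normalising factors -/
theorem Gd.scaled {h : ℕ → E → ℂ} (H : Gd h) {y₀ : E} (h0 : ∀ᶠ j in atTop, h j y₀ = 1)
    {r : ℕ → ℝ} (hr : ∀ j, 0 ≤ r j) {P : Set E} (hP : Dt P)
    (hc : ∀ y ∈ P, ∃ w : ℂ, Tendsto (fun j => (r j : ℂ) * h j y) atTop (𝓝 w)) :
    ∃ g : E → ℂ, Differentiable ℂ g ∧ ∀ y, Tendsto (fun j => (r j : ℂ) * h j y) atTop (𝓝 (g y)) := by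
  have hbdd : ∃ B : ℝ, ∀ᶠ j in atTop, r j ≤ B := by
    by_contra hcon
    push Not at hcon
    have hf : ∀ n : ℕ, ∃ᶠ j in atTop, (n : ℝ) < r j := fun n => by
      have := hcon n
      simpa [Filter.Frequently, not_lt] using this
    obtain ⟨φ, hφ, hφ'⟩ := extraction_forall_of_frequently hf
    have hrt : Tendsto (fun n => r (φ n)) atTop atTop :=
      tendsto_atTop_mono (fun n => (hφ' n).le) tendsto_natCast_atTop_atTop
    have hz : ∀ y ∈ P, Tendsto (fun n => h (φ n) y) atTop (𝓝 0) := by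
      intro y hy
      obtain ⟨w, hw⟩ := hc y hy
      have h1 := hw.comp hφ.tendsto_atTop
      have h2 : Tendsto (fun n => ((r (φ n))⁻¹ : ℂ)) atTop (𝓝 0) := by
        have := (Complex.continuous_ofReal.tendsto 0).comp (tendsto_inv_atTop_zero.comp hrt)
        rw [Complex.ofReal_zero] at this
        refine this.congr fun n => ?_
        simp
      have h3 := h2.mul h1
      rw [zero_mul] at h3
      refine h3.congr' ?_
      filter_upwards [hrt.eventually_gt_atTop 0] with n hn
      have : (r (φ n) : ℂ) ≠ 0 := by exact_mod_cast hn.ne'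
      show (r (φ n) : ℂ)⁻¹ * ((r (φ n) : ℂ) * h (φ n) y) = h (φ n) y
      rw [← mul_assoc, inv_mul_cancel₀ this, one_mul]
    have h4 := (H.comp hφ).vitali_eq hP (f := fun _ => 0) (differentiable_const _) hz y₀
    have h5 : Tendsto (fun n => h (φ n) y₀) atTop (𝓝 1) := by
      refine tendsto_const_nhds.congr' ?_
      filter_upwards [hφ.tendsto_atTop.eventually h0] with n hn using hn.symm
    exact one_ne_zero (tendsto_nhds_unique h5 h4)
  obtain ⟨B, hB⟩ := hbdd
  have H' : Gd (fun j y => (r j : ℂ) * h j y) := by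
    intro R hR
    obtain ⟨C, hC⟩ := H R hR
    refine ⟨|B| * |C|, ?_⟩
    filter_upwards [hC, hB] with j hj hj'
    refine ⟨(differentiableOn_const _).mul hj.1, fun y hy => ?_⟩
    rw [norm_mul, Complex.norm_real, Real.norm_of_nonneg (hr j)]
    gcongr
    · exact hj'.trans (le_abs_self _)
    · exact (hj.2 y hy).trans (le_abs_self _)
  exact H'.vitali hP hc

/-- restriction to a line -/
theorem Gd.line {h : ℕ → E → ℂ} (H : Gd h) (v : E) : Gd (fun j (c : ℂ) => h j (c • v)) := by
  intro R hR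
  obtain ⟨C, hC⟩ := H (R * ‖v‖ + 1) (by positivity)
  have hm : ∀ c ∈ ball (0 : ℂ) R, c • v ∈ ball (0 : E) (R * ‖v‖ + 1) := by
    intro c hc
    rw [mem_ball_zero_iff] at hc ⊢
    rw [norm_smul]
    have := mul_le_mul_of_nonneg_right hc.le (norm_nonneg v)
    linarith
  refine ⟨C, ?_⟩
  filter_upwards [hC] with j hj
  refine ⟨hj.1.comp (differentiable_id.smul_const v).differentiableOn hm, fun c hc =>
    hj.2 _ (hm c hc)⟩

/-- a set of complex numbers with an accumulation point -/
theorem Dt.of_acc {S : Set ℂ} {x : ℂ} (hx : AccPt x (𝓟 S)) : Dt S := by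
  intro g hg h0 y
  have ha : AnalyticOnNhd ℂ g univ := fun z _ => hg.analyticAt z
  have hfr : ∃ᶠ z in 𝓝[≠] x, g z = 0 := by
    refine (accPt_iff_frequently_nhdsNE.1 hx).mono fun z hz => h0 z hz
  have := ha.eqOn_zero_of_preconnected_of_frequently_eq_zero isPreconnected_univ (mem_univ x) hfr
  exact this (mem_univ y)

/-- products of determining sets -/
theorem Dt.pi {ι : Type*} [Fintype ι] {P : ι → Set ℂ} (hP : ∀ i, Dt (P i)) :
    Dt (Set.pi Set.univ P) := by
  classical
  intro g hg h0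
  have key : ∀ s : Finset ι, ∀ y : ι → ℂ, (∀ i, i ∉ s → y i ∈ P i) → g y = 0 := by
    intro s
    induction s using Finset.induction_on with
    | empty => exact fun y hy => h0 y fun i _ => hy i (Finset.notMem_empty i)
    | insert a s ha ih =>
      intro y hy
      have h1 := hP a (fun c => g (Function.update y a c))
        (hg.comp (by
          rw [differentiable_pi]
          intro i
          by_cases hi : i = a
          · subst hi
            simp only [Function.update_self]
            exact differentiable_id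
          · simp only [Function.update_of_ne hi]
            exact differentiable_const _)) (fun c hc => by
          refine ih _ fun i hi => ?_
          by_cases hia : i = a
          · subst hia
            rw [Function.update_self]
            exact hc
          · rw [Function.update_of_ne hia]
            exact hy i fun h => by
              rcases Finset.mem_insert.1 h with h | h
              · exact hia h
              · exact hi h) (y a)
      simpa using h1
  exact fun y => key Finset.univ y fun i hi => absurd (Finset.mem_univ i) hi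

end Pool.Agent.Q80.TM
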