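import Pool.Agent.Q80.TM.Swp

/-!
The factor of the functional equation near the critical line, and translations.
-/

set_option autoImplicit false

open Complex Filter Topology Set MeasureTheory Metric ComplexConjugate
open H345 H345.Chi
open scoped ENNReal

namespace Pool.Agent.Q80.TM

open Q97.MM Pool.Agent.Q80.ZM

/-- the factor of the functional equation at distance `z / log T` -/
theorem XX_ratio {A : ℝ} (hA : 0 < A) {ε : ℝ} (hε : 0 < ε) : ∀ᶠ T : ℝ in atTop, ∀ t : ℝ,
    |t - T| ≤ T / 2 → ∀ z : ℂ, ‖z‖ ≤ A →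
      ‖XX (1 / 2 + (t + z / Real.log T) * I) - cexp (I * z) * XX (1 / 2 + t * I)‖ ≤ ε := by
  have hlim : Tendsto (fun T : ℝ => Real.exp A * (5 * A / Real.log T *
      Real.exp (5 * A / Real.log T))) atTop (𝓝 (Real.exp A * (0 * Real.exp 0))) := by
    have h1 : Tendsto (fun T : ℝ => 5 * A / Real.log T) atTop (𝓝 0) :=
      Real.tendsto_log_atTop.const_div_atTop _
    exact (h1.mul ((Real.continuous_exp.tendsto 0).comp h1)).const_mul _
  rw [zero_mul, mul_zero] at hlim
  filter_upwards [hlim.eventually (gt_mem_nhds hε), eventually_ge_atTop 28,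
    Real.tendsto_log_atTop.eventually_ge_atTop (1 + 8 * A)] with T h1 h2 h3 t ht z hz
  have hT0 : 0 < T := by linarith
  set L := Real.log T with hLd
  have hL1 : 1 ≤ L := by linarith
  have hL0 : 0 < L := by linarith
  rw [abs_le] at ht
  have ht1 : T / 2 ≤ t := by linarith [ht.1]
  have ht2 : t ≤ 3 / 2 * T := by linarith [ht.2]
  have ht0 : 0 < t := by linarith
  have hπ := Real.pi_pos
  have hπ4 := Real.pi_le_four
  have hπ3 := Real.pi_gt_three
  set q : ℂ := z / (L : ℂ) with hq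
  have hqn : ‖q‖ ≤ 1 / 8 := by
    rw [hq, norm_div, Complex.norm_real, Real.norm_of_nonneg hL0.le, div_le_iff₀ hL0]
    linarith
  let P : ℝ → ℂ := fun r => 1 / 2 + (t + r * q) * I
  have hPre : ∀ r, (P r).re = 1 / 2 - r * q.im := by intro r; simp [P]; ring
  have hPim : ∀ r, (P r).im = t + r * q.re := by intro r; simp [P]
  have hqi := abs_le.1 ((Complex.abs_im_le_norm q).trans hqn)
  have hqr := abs_le.1 ((Complex.abs_re_le_norm q).trans hqn)
  have hb : ∀ r ∈ Icc (0 : ℝ) 1, 1 / 4 ≤ (P r).re ∧ (P r).re ≤ 1 ∧ t - 1 / 8 ≤ (P r).im ∧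
      (P r).im ≤ t + 1 / 8 := by
    intro r hr
    rw [hPre, hPim]
    obtain ⟨r0, r1⟩ := hr
    refine ⟨?_, ?_, ?_, ?_⟩ <;> nlinarith
  let F : ℝ → ℂ := fun r => XX (P r) * cexp (-(r * (I * z)))
  have hF : ∀ r ∈ Icc (0 : ℝ) 1, HasDerivAt F (F r * (L2 (P r) * (q * I) - I * z)) r := by
    intro r hr
    obtain ⟨b1, b2, b3, b4⟩ := hb r hr
    have d1 := hasDerivAt_XX (s := P r) (by linarith) (by linarith)
    have d2 : HasDerivAt P (q * I) r := by
      have h5 := ((((hasDerivAt_id r).ofReal_comp.mul_const q).const_add (t : ℂ)).mul_const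
        I).const_add (1 / 2 : ℂ)
      simpa [P] using h5
    have d3 := d1.comp r d2
    have d4 : HasDerivAt (fun r : ℝ => -((r : ℂ) * (I * z))) (-(I * z)) r := by
      have h6 := ((hasDerivAt_id r).ofReal_comp.mul_const (I * z)).neg
      refine HasDerivAt.congr_deriv h6 ?_
      simp
    have d5 := d3.mul d4.cexp
    refine HasDerivAt.congr_deriv d5 ?_
    simp only [F, Function.comp]
    ring
  have hK : ∀ r ∈ Icc (0 : ℝ) 1, ‖L2 (P r) * (q * I) - I * z‖ ≤ 5 * A / L := by
    intro r hr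
    obtain ⟨b1, b2, b3, b4⟩ := hb r hr
    have h5 := L2_close (s := P r) (by linarith) (by linarith) (by linarith)
    have e1 : L2 (P r) * (q * I) - I * z = (L2 (P r) - L) * (q * I) := by
      rw [hq]
      have : (L : ℂ) ≠ 0 := by exact_mod_cast hL0.ne'
      field_simp
    rw [e1, norm_mul, norm_mul, Complex.norm_I, mul_one]
    set u := (P r).im with hu
    have hu0 : 0 < u := by linarith
    have h6 : |Real.log (u / (2 * Real.pi)) - L| ≤ 3 := by
      have c1 : Real.log (u / (2 * Real.pi)) - L = Real.log (u / (2 * Real.pi) / T) := by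
        rw [hLd, ← Real.log_div (by positivity) hT0.ne']
      rw [c1, abs_le]
      constructor
      · rw [← Real.log_exp (-3)]
        apply Real.log_le_log (Real.exp_pos _)
        rw [le_div_iff₀ hT0, le_div_iff₀ (by positivity)]
        have c2 : Real.exp (-3) ≤ 1 / 19 := by
          rw [Real.exp_neg, ← one_div]
          apply one_div_le_one_div_of_le (by norm_num)
          have c3 : (2.7 : ℝ) ≤ Real.exp 1 := by linarith [Real.exp_one_gt_d9]
          have c4 : Real.exp 3 = Real.exp 1 ^ 3 := by rw [← Real.exp_nat_mul]; norm_num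
          rw [c4]
          calc (19 : ℝ) ≤ 2.7 ^ 3 := by norm_num
            _ ≤ _ := pow_le_pow_left₀ (by norm_num) c3 3
        calc Real.exp (-3) * T * (2 * Real.pi) ≤ 1 / 19 * T * (2 * 4) := by gcongr
          _ ≤ u := by linarith
      · have c5 : u / (2 * Real.pi) / T ≤ 1 := by
          rw [div_le_one hT0, div_le_iff₀ (by positivity)]
          nlinarith
        have c6 := Real.log_nonpos (by positivity) c5
        linarith
    have h7 : 14 / u ≤ 1 + 1 / 27 := by
      rw [div_le_iff₀ hu0]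
      linarith
    have h8 : ‖L2 (P r) - L‖ ≤ 4 + 1 / 27 + 0 := by
      have e2 : L2 (P r) - L = (L2 (P r) - (Real.log (u / (2 * Real.pi)) : ℂ)) +
          ((Real.log (u / (2 * Real.pi)) - L : ℝ) : ℂ) := by push_cast; ring
      rw [e2]
      refine (norm_add_le _ _).trans ?_
      rw [Complex.norm_real, Real.norm_eq_abs]
      linarith
    have h9 : ‖q‖ ≤ A / L := by
      rw [hq, norm_div, Complex.norm_real, Real.norm_of_nonneg hL0.le]
      gcongr
    have e5 : 5 * A / L = 5 * (A / L) := by ring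
    rw [e5]
    exact mul_le_mul (by linarith) h9 (norm_nonneg _) (by norm_num)
  have h0 : ‖F 0‖ = 1 := by
    simp only [F, P]
    rw [norm_mul]
    have e3 : (1 / 2 + ((t : ℂ) + ((0 : ℝ) : ℂ) * q) * I) = 1 / 2 + (t : ℂ) * I := by
      push_cast; ring
    rw [e3, norm_XX_half]
    simp
  set K := 5 * A / L with hKd
  have hK0 : 0 ≤ K := by positivity
  have hFb : ∀ r ∈ Icc (0 : ℝ) 1, ‖F r‖ ≤ Real.exp K := by
    intro r hr
    refine (gron hF hK h0 hr).trans ?_
    apply Real.exp_le_exp.2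
    have := hr.2
    rw [sub_zero]
    nlinarith [hr.1]
  have hFd : ‖F 1 - F 0‖ ≤ K * Real.exp K := by
    refine norm_image_sub_le_of_norm_deriv_le_segment_01' (f := F)
      (f' := fun r => F r * (L2 (P r) * (q * I) - I * z)) (fun r hr => (hF r hr).hasDerivWithinAt)
      (fun r hr => ?_)
    have hr' : r ∈ Icc (0 : ℝ) 1 := Ico_subset_Icc_self hr
    rw [norm_mul, mul_comm]
    exact mul_le_mul (hK r hr') (hFb r hr') (norm_nonneg _) hK0
  have e1 : XX (1 / 2 + (t + z / L) * I) - cexp (I * z) * XX (1 / 2 + t * I) =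
      cexp (I * z) * (F 1 - F 0) := by
    have e2 : XX (1 / 2 + (t + z / L) * I) = cexp (I * z) * F 1 := by
      have e4 : cexp (I * z) * cexp (-(I * z)) = 1 := by
        rw [← Complex.exp_add, add_neg_cancel, Complex.exp_zero]
      simp only [F, P]
      push_cast
      rw [one_mul, one_mul]
      linear_combination (-XX (1 / 2 + (t + q) * I)) * e4
    have e3 : XX (1 / 2 + t * I) = F 0 := by
      simp only [F, P]
      push_cast
      rw [zero_mul, zero_mul, neg_zero, Complex.exp_zero, mul_one, add_zero]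
    rw [e2, e3]
    ring
  rw [e1, norm_mul]
  have h5 : ‖cexp (I * z)‖ ≤ Real.exp A := by
    rw [Complex.norm_exp]
    apply Real.exp_le_exp.2
    have : (I * z).re = -z.im := by simp
    rw [this]
    have := abs_le.1 ((Complex.abs_im_le_norm z).trans hz)
    linarith
  calc ‖cexp (I * z)‖ * ‖F 1 - F 0‖ ≤ Real.exp A * (K * Real.exp K) :=
        mul_le_mul h5 hFd (norm_nonneg _) (Real.exp_pos _).le
    _ ≤ ε := h1.le

/-- the symmetric product -/
noncomputable def fo (k : ℕ) (T t : ℝ) (y : Fin k ⊕ Fin k → ℂ) : ℂ :=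
  (∏ i, zp T t (y i)) * XX (1 / 2 + t * I) ^ k

theorem fo_norm (k : ℕ) (T t : ℝ) (y : Fin k ⊕ Fin k → ℂ) : ‖fo k T t y‖ =
    ∏ i, ‖zp T t (y i)‖ := by
  unfold fo
  rw [norm_mul, norm_pow, norm_XX_half, one_pow, mul_one, norm_prod]

theorem fo_bd {k : ℕ} (hk : 1 ≤ k) {A T U : ℝ} (hA : 0 < A) (h : Adm T U)
    (hr : A / Real.log T ≤ 1 / 8) (hL : 8 * A ≤ Real.log T ^ 2) (t : ℝ) {y : Fin k ⊕ Fin k → ℂ}
    (hy : ∀ i, ‖y i‖ ≤ A) : ‖fo k T t y‖ * wt T U t ≤ maj k A T U t := by
  rw [fo_norm]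
  exact prod_bd hk (fun i => norm_nonneg _) (wt_pos _ _ _).le
    fun i => zp_bd k hA h hr hL t (hy _)

theorem fo_poly (k : ℕ) {A T t : ℝ} {y : Fin k ⊕ Fin k → ℂ} (hL : 1 ≤ Real.log T)
    (hr : A / Real.log T ≤ 1 / 8) (hy : ∀ i, ‖y i‖ ≤ A) :
    ‖fo k T t y‖ ≤ 720 ^ (2 * k) * (1 + |t|) ^ (4 * k) := by
  rw [fo_norm]
  have h1 : ∏ i, ‖zp T t (y i)‖ ≤ ∏ _i : Fin k ⊕ Fin k, 720 * (1 + |t|) ^ 2 :=
    Finset.prod_le_prod (fun i _ => norm_nonneg _) fun i _ => (zp_poly hL hr (hy i)).1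
  refine h1.trans (le_of_eq ?_)
  rw [Finset.prod_const, Finset.card_univ, Fintype.card_sum, Fintype.card_fin, ← two_mul, mul_pow,
    ← pow_mul]
  congr 2
  ring

/-- the functional equation for one factor -/
theorem zm_fe {T t : ℝ} {z : ℂ} (h : 1 < t + (z / (Real.log T : ℂ)).re) :
    zm T t z = XX (1 / 2 + (t + z / Real.log T) * I) * zp T t z := by
  unfold zm zp
  generalize z / (Real.log T : ℂ) = q at h ⊢
  have h3 := zeta_fe (1 / 2 + (t + q) * I) (by
    intro m hm
    have := congrArg Complex.im hm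
    simp at this
    linarith) (by
    intro hm
    have := congrArg Complex.im hm
    simp at this
    linarith)
  rw [← h3]
  congr 1
  ring

/-- the difference between the product and its symmetric form -/
theorem ff_fo {k : ℕ} {A : ℝ} (hA : 0 < A) {κ : ℝ} (hκ : 0 < κ) : ∀ᶠ T : ℝ in atTop,
    ∀ U : ℝ, Adm T U → ∀ t, |t - T| ≤ T / 2 → ∀ y : Fin k ⊕ Fin k → ℂ, (∀ i, ‖y i‖ ≤ A) →
      ‖ff k T t y - cexp (I * ∑ i, y (Sum.inr i)) * fo k T t y‖ ≤ κ * ‖fo k T t y‖ := by
  set B := Real.exp A + 1 with hB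
  have hB1 : 1 ≤ B := by rw [hB]; linarith [Real.exp_pos A]
  have hε : 0 < min 1 (κ / ((k + 1 : ℝ) * B ^ k)) := by positivity
  filter_upwards [XX_ratio hA hε, eventually_ge_atTop 28,
    Real.tendsto_log_atTop.eventually_ge_atTop (1 + 8 * A)] with T h1 h2 h3 U h t ht y hy
  set L := Real.log T with hLd
  have hL1 : 1 ≤ L := h.log
  have ht' := abs_le.1 ht
  have hfe : ∀ i, zm T t (y (Sum.inr i)) = XX (1 / 2 + (t + y (Sum.inr i) / L) * I) *
      zp T t (y (Sum.inr i)) := by
    intro i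
    apply zm_fe
    have h4 : ‖y (Sum.inr i) / (L : ℂ)‖ ≤ 1 / 8 := by
      rw [norm_div, Complex.norm_real, Real.norm_of_nonneg (by linarith), div_le_iff₀ (by linarith)]
      linarith [hy (Sum.inr i)]
    have h5 := abs_le.1 ((Complex.abs_re_le_norm _).trans h4)
    rw [← hLd]
    linarith
  have e1 : ff k T t y - cexp (I * ∑ i, y (Sum.inr i)) * fo k T t y =
      (∏ i, zp T t (y i)) * ((∏ i, XX (1 / 2 + (t + y (Sum.inr i) / L) * I)) -
        ∏ i, (cexp (I * y (Sum.inr i)) * XX (1 / 2 + t * I))) := by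
    unfold ff fo
    simp only [hfe]
    rw [Finset.prod_mul_distrib, Finset.prod_mul_distrib, Finset.prod_const, Finset.card_univ,
      Fintype.card_fin, Fintype.prod_sum_type, Finset.mul_sum, Complex.exp_sum]
    ring
  rw [e1, norm_mul, fo_norm, ← norm_prod, mul_comm κ]
  apply mul_le_mul_of_nonneg_left _ (norm_nonneg _)
  have hb : ∀ i : Fin k, ‖cexp (I * y (Sum.inr i)) * XX (1 / 2 + t * I)‖ ≤ Real.exp A := by
    intro i
    rw [norm_mul, norm_XX_half, mul_one, Complex.norm_exp]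
    apply Real.exp_le_exp.2
    have : (I * y (Sum.inr i)).re = -(y (Sum.inr i)).im := by simp
    rw [this]
    have := abs_le.1 ((Complex.abs_im_le_norm (y (Sum.inr i))).trans (hy _))
    linarith
  have hab : ∀ i : Fin k, ‖XX (1 / 2 + (t + y (Sum.inr i) / L) * I) -
      cexp (I * y (Sum.inr i)) * XX (1 / 2 + t * I)‖ ≤ min 1 (κ / ((k + 1 : ℝ) * B ^ k)) :=
    fun i => h1 t ht _ (hy _)
  have key := (prod_sub Finset.univ (B := B) (ε := min 1 (κ / ((k + 1 : ℝ) * B ^ k))) hB1 hε.le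
    (a := fun i : Fin k => XX (1 / 2 + (t + y (Sum.inr i) / L) * I))
    (b := fun i : Fin k => cexp (I * y (Sum.inr i)) * XX (1 / 2 + t * I))
    (fun i => by
      have h5 := norm_sub_norm_le (XX (1 / 2 + (t + y (Sum.inr i) / L) * I))
        (cexp (I * y (Sum.inr i)) * XX (1 / 2 + t * I))
      have h6 := (hab i).trans (min_le_left _ _)
      have := hb i
      rw [hB]
      linarith) (fun i => (hb i).trans (by rw [hB]; linarith)) hab).2.2
  refine key.trans ?_
  rw [Finset.card_univ, Fintype.card_fin]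
  have h7 : min 1 (κ / ((k + 1 : ℝ) * B ^ k)) ≤ κ / ((k + 1 : ℝ) * B ^ k) := min_le_right _ _
  have hBk : 0 < B ^ k := by positivity
  calc (k : ℝ) * B ^ k * min 1 (κ / ((k + 1 : ℝ) * B ^ k))
      ≤ (k : ℝ) * B ^ k * (κ / ((k + 1 : ℝ) * B ^ k)) := by gcongr
    _ = κ * (k / (k + 1)) := by field_simp
    _ ≤ κ * 1 := by
        apply mul_le_mul_of_nonneg_left _ hκ.le
        rw [div_le_one (by positivity)]
        linarith
    _ = κ := mul_one _

end Pool.Agent.Q80.TM
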