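import Pool.Agent.Q80.TM.Sh

/-!
Hölder's inequality for the shifted moments.
-/

set_option autoImplicit false

open Complex Filter Topology Set MeasureTheory Metric ComplexConjugate
open scoped ENNReal

namespace Pool.Agent.Q80.TM

open Q97.MM Pool.Agent.Q80.ZM

theorem zp_add (T t : ℝ) (z : ℂ) :
    zp T t z = zp T (t + z.re / Real.log T) ((z.im : ℂ) * I) := by
  unfold zp
  congr 3
  nth_rewrite 1 [← Complex.re_add_im z]
  push_cast
  ring

/-- the moment of one factor -/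
theorem zp_mom {k : ℕ} (z : ℂ) {ε : ℝ} (hε : 0 < ε) : ∀ᶠ T : ℝ in atTop, ∀ U : ℝ,
    Adm T U → Integrable (fun t => ‖zp T t z‖ ^ (2 * k) * wt T U t) ∧
      ∫ t, ‖zp T t z‖ ^ (2 * k) * wt T U t ≤
        (Real.exp (k * z.im) * Real.cosh (k * z.im) + ε) * JJ k T U (1 / 2) := by
  set A := ‖z‖ + 1 with hA
  have hA0 : 0 < A := by positivity
  have hzA : ‖z‖ ≤ A := by linarith
  have hzA' : ‖(z.im : ℂ) * I‖ ≤ A := by
    rw [norm_mul, Complex.norm_I, mul_one, Complex.norm_real, Real.norm_eq_abs]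
    linarith [Complex.abs_im_le_norm z]
  obtain ⟨T₀, hT₀⟩ := bounds k (-z.im) (half_pos hε)
  obtain ⟨C', hC', hev⟩ := ev k hA0
  filter_upwards [eventually_ge_atTop T₀, hev, shift k hA0 z.re (4 * k)
    (C₀ := 720 ^ (2 * k)) (by positivity) (half_pos hε)] with T h1 h2 h3 U h
  obtain ⟨hr, hL, hJ, hi, hI⟩ := h2 U h
  have hL1 := h.log
  set f : ℝ → ℂ := fun t => ((‖zp T t ((z.im : ℂ) * I)‖ ^ (2 * k) : ℝ) : ℂ) with hf
  have hfc : Continuous f :=
    Complex.continuous_ofReal.comp (((zp_cont hL1 hr hzA').1.norm).pow _)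
  have hfn : ∀ t, ‖f t‖ = ‖zp T t ((z.im : ℂ) * I)‖ ^ (2 * k) := by
    intro t
    rw [hf]
    rw [Complex.norm_real, Real.norm_of_nonneg (by positivity)]
  have key := h3 U h f hfc (fun t => by
    rw [hfn]
    have := (zp_poly (t := t) hL1 hr hzA').1
    calc ‖zp T t ((z.im : ℂ) * I)‖ ^ (2 * k) ≤ (720 * (1 + |t|) ^ 2) ^ (2 * k) :=
          pow_le_pow_left₀ (norm_nonneg _) this _
      _ = _ := by rw [mul_pow, ← pow_mul]; congr 2; ring) (fun t => by
    rw [hfn]
    exact zp_bd k hA0 h hr hL t hzA')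
  have hb := (hT₀ T h1 U h.2.1 h.2.2).2
  have e1 : ∫ t, f (t + z.re / Real.log T) * (wt T U t : ℂ) =
      ((∫ t, ‖zp T t z‖ ^ (2 * k) * wt T U t : ℝ) : ℂ) := by
    rw [← integral_complex_ofReal]
    refine integral_congr_ae (Eventually.of_forall fun t => ?_)
    show f (t + z.re / Real.log T) * (wt T U t : ℂ) =
      ((‖zp T t z‖ ^ (2 * k) * wt T U t : ℝ) : ℂ)
    rw [hf, zp_add T t z]
    push_cast
    ring
  have e2 : ∫ t, f t * (wt T U t : ℂ) = ((Ja k T U (-z.im) : ℝ) : ℂ) := by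
    unfold Ja JJ
    rw [← integral_complex_ofReal]
    refine integral_congr_ae (Eventually.of_forall fun t => ?_)
    have e3 : zp T t ((z.im : ℂ) * I) =
        riemannZeta (((1 / 2 + -z.im / Real.log T : ℝ) : ℂ) + t * I) := by
      unfold zp
      congr 1
      push_cast
      linear_combination ((z.im : ℂ) / (Real.log T : ℂ)) * Complex.I_sq
    show f t * (wt T U t : ℂ) = _
    rw [hf]
    simp only
    rw [e3]
    push_cast
    rfl
  have e0 : Ja k T U 0 = JJ k T U (1 / 2) := by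
    unfold Ja
    rw [zero_div, add_zero]
  refine ⟨?_, ?_⟩
  · refine hi.mono' ((((zp_cont hL1 hr hzA).1.norm.pow _).mul
      (wt_cont T U)).aestronglyMeasurable) (Eventually.of_forall fun t => ?_)
    rw [Real.norm_of_nonneg (mul_nonneg (by positivity) (wt_pos _ _ _).le)]
    exact zp_bd k hA0 h hr hL t hzA
  · rw [e1, e2, ← Complex.ofReal_sub, Complex.norm_real, Real.norm_eq_abs] at key
    have k1 := (abs_le.1 key).2
    rw [e0, div_le_iff₀ hJ] at hb
    have e4 : (1 + Real.exp (-(2 * k * -z.im))) / 2 =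
        Real.exp (k * z.im) * Real.cosh (k * z.im) := by
      rw [Real.cosh_eq, show -(2 * (k : ℝ) * -z.im) = k * z.im + k * z.im by ring, Real.exp_add]
      have : Real.exp (k * z.im) * Real.exp (-(k * z.im)) = 1 := by
        rw [← Real.exp_add, add_neg_cancel, Real.exp_zero]
      linear_combination (-1 / 2) * this
    rw [e4] at hb
    nlinarith

theorem zm_mom {k : ℕ} (z : ℂ) {ε : ℝ} (hε : 0 < ε) : ∀ᶠ T : ℝ in atTop, ∀ U : ℝ,
    Adm T U → Integrable (fun t => ‖zm T t z‖ ^ (2 * k) * wt T U t) ∧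
      ∫ t, ‖zm T t z‖ ^ (2 * k) * wt T U t ≤
        (Real.exp (k * -z.im) * Real.cosh (k * -z.im) + ε) * JJ k T U (1 / 2) := by
  filter_upwards [zp_mom (k := k) (conj z) hε] with T h U hA
  have h1 := h U hA
  rw [Complex.conj_im] at h1
  have e : ∀ t, ‖zm T t z‖ = ‖zp T t (conj z)‖ := fun t => by rw [zm_conj, RCLike.norm_conj]
  simp only [e]
  exact h1

/-- the signed imaginary part -/
noncomputable def si {k : ℕ} (y : Fin k ⊕ Fin k → ℂ) : Fin k ⊕ Fin k → ℝ :=
  Sum.elim (fun i => (y (Sum.inl i)).im) (fun i => -(y (Sum.inr i)).im)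

/-- Hölder's inequality -/
theorem SS_holder {k : ℕ} (hk : 1 ≤ k) (y : Fin k ⊕ Fin k → ℂ) {ε : ℝ} (hε : 0 < ε) :
    ∀ᶠ T : ℝ in atTop, ∀ U : ℝ, Adm T U → ‖SS k T U y‖ ≤
      (∏ i, (Real.exp (k * si y i) * Real.cosh (k * si y i) + ε) ^ (1 / (2 * k : ℝ))) *
        JJ k T U (1 / 2) := by
  have h1 : ∀ i, ∀ᶠ T : ℝ in atTop, ∀ U : ℝ, Adm T U →
      Integrable (fun t => Sum.elim (fun i => ‖zp T t (y (Sum.inl i))‖)
        (fun i => ‖zm T t (y (Sum.inr i))‖) i ^ (2 * k) * wt T U t) ∧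
      ∫ t, Sum.elim (fun i => ‖zp T t (y (Sum.inl i))‖) (fun i => ‖zm T t (y (Sum.inr i))‖) i ^
        (2 * k) * wt T U t ≤
          (Real.exp (k * si y i) * Real.cosh (k * si y i) + ε) * JJ k T U (1 / 2) := by
    rintro (i | i)
    · exact zp_mom _ hε
    · exact zm_mom _ hε
  have h2 := eventually_all.2 h1
  filter_upwards [h2, JJ_pos k] with T h3 h4 U h
  have hJ := h4 U h
  set a : Fin k ⊕ Fin k → ℝ → ℝ := fun i t => Sum.elim (fun i => ‖zp T t (y (Sum.inl i))‖)
    (fun i => ‖zm T t (y (Sum.inr i))‖) i with ha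
  have ha0 : ∀ i t, 0 ≤ a i t := by
    rintro (i | i) t <;> exact norm_nonneg _
  set p : ℝ := 1 / (2 * k) with hp
  have hk0 : (0 : ℝ) < k := by exact_mod_cast hk
  have hp0 : 0 < p := by positivity
  have hcard : ((Finset.univ : Finset (Fin k ⊕ Fin k)).card : ℝ) = 2 * k := by
    rw [Finset.card_univ, Fintype.card_sum, Fintype.card_fin]
    push_cast
    ring
  set B : Fin k ⊕ Fin k → ℝ := fun i => Real.exp (k * si y i) * Real.cosh (k * si y i) + ε with hB
  have hB0 : ∀ i, 0 < B i := fun i => by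
    have := Real.exp_pos (k * si y i)
    have := Real.cosh_pos (k * si y i)
    positivity
  have hw := fun t => wt_pos T U t
  have key := ENNReal.lintegral_prod_norm_pow_le (μ := (volume : Measure ℝ)) Finset.univ
    (f := fun i t => ENNReal.ofReal (a i t ^ (2 * k) * wt T U t)) (fun i _ =>
      ((h3 i U h).1.aestronglyMeasurable.aemeasurable).ennreal_ofReal) (p := fun _ => p) (by
      rw [Finset.sum_const, nsmul_eq_mul, hcard, hp]
      field_simp) (fun _ _ => hp0.le)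
  have hpt : ∀ t, ∏ i, ENNReal.ofReal (a i t ^ (2 * k) * wt T U t) ^ p =
      ENNReal.ofReal (‖ff k T t y‖ * wt T U t) := by
    intro t
    have e1 : ∀ i, ENNReal.ofReal (a i t ^ (2 * k) * wt T U t) ^ p =
        ENNReal.ofReal (a i t * wt T U t ^ p) := by
      intro i
      rw [ENNReal.ofReal_rpow_of_nonneg (mul_nonneg (pow_nonneg (ha0 i t) _) (hw t).le) hp0.le]
      congr 1
      rw [Real.mul_rpow (pow_nonneg (ha0 i t) _) (hw t).le]
      congr 1
      rw [← Real.rpow_natCast, ← Real.rpow_mul (ha0 i t), hp]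
      push_cast
      rw [mul_one_div_cancel (by positivity), Real.rpow_one]
    rw [Finset.prod_congr rfl fun i _ => e1 i, ← ENNReal.ofReal_prod_of_nonneg (fun i _ =>
      mul_nonneg (ha0 i t) (Real.rpow_nonneg (hw t).le _)), Finset.prod_mul_distrib, ff_norm,
      Finset.prod_const]
    congr 2
    rw [← Real.rpow_natCast, ← Real.rpow_mul (hw t).le, hcard, hp, one_div_mul_cancel (by positivity),
      Real.rpow_one]
  rw [lintegral_congr hpt] at key
  have hint : ∀ i, ∫⁻ t, ENNReal.ofReal (a i t ^ (2 * k) * wt T U t) ≤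
      ENNReal.ofReal (B i * JJ k T U (1 / 2)) := by
    intro i
    rw [← ofReal_integral_eq_lintegral_ofReal (h3 i U h).1 (Eventually.of_forall fun t =>
      mul_nonneg (pow_nonneg (ha0 i t) _) (hw t).le)]
    exact ENNReal.ofReal_le_ofReal (h3 i U h).2
  have h5 : ∏ i, (∫⁻ t, ENNReal.ofReal (a i t ^ (2 * k) * wt T U t)) ^ p ≤
      ∏ i, ENNReal.ofReal (B i * JJ k T U (1 / 2)) ^ p :=
    Finset.prod_le_prod' fun i _ => ENNReal.rpow_le_rpow (hint i) hp0.le
  have h6 : ∏ i, ENNReal.ofReal (B i * JJ k T U (1 / 2)) ^ p =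
      ENNReal.ofReal ((∏ i, B i ^ p) * JJ k T U (1 / 2)) := by
    have e1 : ∀ i, ENNReal.ofReal (B i * JJ k T U (1 / 2)) ^ p =
        ENNReal.ofReal (B i ^ p * JJ k T U (1 / 2) ^ p) := by
      intro i
      rw [ENNReal.ofReal_rpow_of_nonneg (mul_nonneg (hB0 i).le hJ.le) hp0.le,
        Real.mul_rpow (hB0 i).le hJ.le]
    rw [Finset.prod_congr rfl fun i _ => e1 i, ← ENNReal.ofReal_prod_of_nonneg (fun i _ =>
      mul_nonneg (Real.rpow_nonneg (hB0 i).le _) (Real.rpow_nonneg hJ.le _)),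
      Finset.prod_mul_distrib, Finset.prod_const]
    congr 2
    rw [← Real.rpow_natCast, ← Real.rpow_mul hJ.le, hcard, hp, one_div_mul_cancel (by positivity),
      Real.rpow_one]
  have h7 := key.trans (h5.trans h6.le)
  have h8 : ‖SS k T U y‖ₑ ≤ ENNReal.ofReal ((∏ i, B i ^ p) * JJ k T U (1 / 2)) := by
    refine le_trans (enorm_integral_le_lintegral_enorm _) (le_trans (le_of_eq ?_) h7)
    refine lintegral_congr fun t => ?_
    rw [← ofReal_norm, norm_mul, Complex.norm_real, Real.norm_of_nonneg (hw t).le]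
  rw [← ofReal_norm] at h8
  have h9 : 0 ≤ (∏ i, B i ^ p) * JJ k T U (1 / 2) :=
    mul_nonneg (Finset.prod_nonneg fun i _ => Real.rpow_nonneg (hB0 i).le _) hJ.le
  exact (ENNReal.ofReal_le_ofReal_iff h9).1 h8

end Pool.Agent.Q80.TM
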