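import Pool.Agent.Q80.TM.Fe
import Pool.Agent.Q97.MM.Fin

/-!
Translations and Hölder's inequality.
-/

set_option autoImplicit false

open Complex Filter Topology Set MeasureTheory Metric ComplexConjugate
open H345 H345.Chi
open scoped ENNReal

namespace Pool.Agent.Q80.TM

open Q97.MM Pool.Agent.Q80.ZM

theorem wt_le (T U t : ℝ) : wt T U t ≤ Real.exp (-(3 / 4 * ((t - T) / U) ^ 2)) := by
  unfold wt
  apply Real.exp_le_exp.2
  nlinarith [sq_nonneg ((t - T) / U)]

/-- the symmetric shifted moment -/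
noncomputable def SO (k : ℕ) (T U : ℝ) (y : Fin k ⊕ Fin k → ℂ) : ℂ :=
  ∫ t : ℝ, fo k T t y * (wt T U t : ℂ)

theorem XX_half_cont : Continuous (fun t : ℝ => XX (1 / 2 + t * I)) := by
  rw [continuous_iff_continuousAt]
  intro t
  have h1 : DifferentiableAt ℂ XX (1 / 2 + t * I) := by
    unfold XX
    have hG : DifferentiableAt ℂ Gamma (1 / 2 + t * I) := by
      apply Complex.differentiableAt_Gamma
      intro m hm
      have h2 := congrArg Complex.re hm
      simp at h2
      have : (0 : ℝ) ≤ m := Nat.cast_nonneg m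
      linarith
    have h3 : DifferentiableAt ℂ (fun s : ℂ => (2 * (Real.pi : ℂ)) ^ (-s)) (1 / 2 + t * I) := by
      apply DifferentiableAt.const_cpow (by fun_prop)
      left
      exact two_pi_ne
    have h4 : DifferentiableAt ℂ (fun s : ℂ => Complex.cos (Real.pi * s / 2)) (1 / 2 + t * I) := by
      fun_prop
    exact ((h3.const_mul 2).mul hG).mul h4
  have h2 : ContinuousAt (fun t : ℝ => (1 / 2 + t * I : ℂ)) t := by fun_prop
  exact ContinuousAt.comp (g := XX) h1.continuousAt h2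

theorem fo_cont (k : ℕ) {A T : ℝ} {y : Fin k ⊕ Fin k → ℂ} (hL : 1 ≤ Real.log T)
    (hr : A / Real.log T ≤ 1 / 8) (hy : ∀ i, ‖y i‖ ≤ A) : Continuous (fun t => fo k T t y) := by
  unfold fo
  refine Continuous.mul ?_ (XX_half_cont.pow k)
  exact continuous_finsetProd _ fun i _ => (zp_cont hL hr (hy _)).1

theorem mul_wt_int {k : ℕ} {A T U : ℝ} (hi : Integrable (maj k A T U)) {f : ℝ → ℂ}
    (hf : Continuous f) (hb : ∀ t, ‖f t‖ * wt T U t ≤ maj k A T U t) :
    Integrable (fun t => f t * (wt T U t : ℂ)) := by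
  refine hi.mono' ((hf.mul (Complex.continuous_ofReal.comp (wt_cont T U))).aestronglyMeasurable)
    (Eventually.of_forall fun t => ?_)
  show ‖f t * (wt T U t : ℂ)‖ ≤ _
  rw [norm_mul, Complex.norm_real, Real.norm_of_nonneg (wt_pos _ _ _).le]
  exact hb t

/-- The functional equation for the shifted moments. -/
theorem SS_SO {k : ℕ} (hk : 1 ≤ k) (y : Fin k ⊕ Fin k → ℂ) {ε : ℝ} (hε : 0 < ε) :
    ∀ᶠ T : ℝ in atTop, ∀ U : ℝ, Adm T U →
      ‖SS k T U y - cexp (I * ∑ i, y (Sum.inr i)) * SO k T U y‖ ≤ ε * JJ k T U (1 / 2) := by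
  set A := ‖y‖ + 1 with hA
  have hA0 : 0 < A := by positivity
  have hy : ∀ i, ‖y i‖ ≤ A := fun i => (norm_le_pi_norm y i).trans (by linarith)
  obtain ⟨C, hC, hs⟩ := small k hA0
  obtain ⟨C', hC', hev⟩ := ev k hA0
  set q := cexp (I * ∑ i, y (Sum.inr i)) with hq
  have hκ : 0 < ε / (2 * C) := by positivity
  filter_upwards [hs (4 * k) (720 ^ (2 * k) * (1 + ‖q‖)) (1 / 2) (by positivity) (by norm_num)
    (ε / 2) (by positivity), hev, ff_fo (k := k) hA0 hκ] with T h1 h2 h3 U h
  obtain ⟨hr, hL, hJ, hi, hI⟩ := h2 U h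
  have hL1 := h.log
  have hT := h.1
  have hUT : U * Real.log T ≤ T := by
    have := h.2.2
    rwa [le_div_iff₀ (by linarith)] at this
  have i1 := mul_wt_int hi (ff_cont k hL1 hr hy) fun t => ff_bd hk hA0 h hr hL t hy
  have i2 := mul_wt_int hi (fo_cont k hL1 hr hy) fun t => fo_bd hk hA0 h hr hL t hy
  have e1 : SS k T U y - q * SO k T U y =
      ∫ t, (ff k T t y - q * fo k T t y) * (wt T U t : ℂ) := by
    unfold SS SO
    rw [← integral_const_mul, ← integral_sub i1 (i2.const_mul q)]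
    refine integral_congr_ae (Eventually.of_forall fun t => ?_)
    show _ = _
    ring
  rw [e1]
  refine (h1 U h _ (ε / (2 * C)) hκ.le (fun t => ?_) (fun t ht => ?_)).trans (le_of_eq ?_)
  · rw [norm_mul, Complex.norm_real, Real.norm_of_nonneg (wt_pos _ _ _).le]
    apply mul_le_mul ?_ (wt_le T U t) (wt_pos _ _ _).le (by positivity)
    refine (norm_sub_le _ _).trans ?_
    rw [norm_mul]
    have a1 := ff_poly k hL1 hr hy (t := t)
    have a2 := fo_poly k hL1 hr hy (t := t)
    have a3 := mul_le_mul_of_nonneg_left a2 (norm_nonneg q)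
    calc _ ≤ 720 ^ (2 * k) * (1 + |t|) ^ (4 * k) +
          ‖q‖ * (720 ^ (2 * k) * (1 + |t|) ^ (4 * k)) := add_le_add a1 a3
      _ = _ := by ring
  · rw [norm_mul, Complex.norm_real, Real.norm_of_nonneg (wt_pos _ _ _).le]
    have a1 := h3 U h t (ht.trans (by linarith)) y hy
    calc _ ≤ ε / (2 * C) * ‖fo k T t y‖ * wt T U t :=
          mul_le_mul_of_nonneg_right a1 (wt_pos _ _ _).le
      _ = ε / (2 * C) * (‖fo k T t y‖ * wt T U t) := by ring
      _ ≤ _ := mul_le_mul_of_nonneg_left (fo_bd hk hA0 h hr hL t hy) hκ.le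
  · congr 1
    field_simp
    ring

theorem SO_perm {k : ℕ} (T U : ℝ) (y : Fin k ⊕ Fin k → ℂ) (σ : Equiv.Perm (Fin k ⊕ Fin k)) :
    SO k T U (y ∘ σ) = SO k T U y := by
  unfold SO fo
  refine integral_congr_ae (Eventually.of_forall fun t => ?_)
  show (∏ i, zp T t ((y ∘ σ) i)) * _ * _ = _
  rw [show (∏ i, zp T t ((y ∘ σ) i)) = ∏ i, zp T t (y i) from
    Equiv.prod_comp σ (fun i => zp T t (y i))]

/-- translations by a multiple of `1 / log T` do not matter -/
theorem shift (k : ℕ) {A : ℝ} (hA : 0 < A) (c : ℝ) (N : ℕ) {C₀ : ℝ} (hC₀ : 0 ≤ C₀) {ε : ℝ}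
    (hε : 0 < ε) : ∀ᶠ T : ℝ in atTop, ∀ U : ℝ, Adm T U → ∀ f : ℝ → ℂ, Continuous f →
      (∀ t, ‖f t‖ ≤ C₀ * (1 + |t|) ^ N) → (∀ t, ‖f t‖ * wt T U t ≤ maj k A T U t) →
      ‖(∫ t, f (t + c / Real.log T) * (wt T U t : ℂ)) - ∫ t, f t * (wt T U t : ℂ)‖ ≤
        ε * JJ k T U (1 / 2) := by
  obtain ⟨C, hC, hs⟩ := small k hA
  obtain ⟨C', hC', hev⟩ := ev k hA
  set κ := min (ε / (2 * C)) 1 with hκd
  have hκ : 0 < κ := by positivity
  have hκ1 : κ ≤ 1 := min_le_right _ _
  set δ := κ / (8 * (|c| + 1)) with hδd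
  have hδ : 0 < δ := by positivity
  have hlim : Tendsto (fun T : ℝ => (2 * c ^ 2) / Real.log T) atTop (𝓝 0) :=
    Real.tendsto_log_atTop.const_div_atTop _
  filter_upwards [hs N (C₀ * (Real.exp (3 * c ^ 2) + 1)) δ (by positivity) hδ
    (ε / 2) (by positivity), hev, hlim.eventually (gt_mem_nhds (show (0 : ℝ) < κ / 2 by positivity))]
    with T h1 h2 h4 U h f hf hfp hfm
  obtain ⟨hr, hL, hJ, hi, hI⟩ := h2 U h
  have hL1 := h.log
  have hT := h.1
  have hU := h.pos
  have hU1 := h.2.1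
  set L := Real.log T with hLd
  have hL0 : 0 < L := by linarith
  set b := c / L with hb
  -- the exponents
  have hx : ∀ t, (t - b - T) / U = (t - T) / U - b / U := fun t => by ring
  have hbU : |b / U| ≤ |c| / L := by
    rw [hb, abs_div, abs_div, abs_of_pos hU, abs_of_pos hL0]
    exact div_le_self (by positivity) hU1
  have hbU2 : (b / U) ^ 2 ≤ c ^ 2 / L := by
    rw [← sq_abs (b / U), ← sq_abs c]
    have h5 : |c| / L ≤ |c| := div_le_self (abs_nonneg _) hL1
    calc |b / U| ^ 2 ≤ (|c| / L) ^ 2 := pow_le_pow_left₀ (abs_nonneg _) hbU 2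
      _ = (|c| / L) * (|c| / L) := by ring
      _ ≤ |c| * (|c| / L) := by gcongr
      _ = |c| ^ 2 / L := by ring
  have hc2 : c ^ 2 / L ≤ c ^ 2 := div_le_self (sq_nonneg c) hL1
  have hwt2 : ∀ t, wt T U (t - b) ≤ Real.exp (3 * c ^ 2) *
      Real.exp (-(3 / 4 * ((t - T) / U) ^ 2)) := by
    intro t
    unfold wt
    rw [← Real.exp_add, hx]
    apply Real.exp_le_exp.2
    set x := (t - T) / U
    nlinarith [sq_nonneg (x / 2 - 2 * (b / U))]
  have hgi : Integrable (fun t => f t * (wt T U (t - b) : ℂ)) := by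
    have hsc := (scaled_integrable N T hU).const_mul (C₀ * Real.exp (3 * c ^ 2) * (1 + T) ^ N)
    refine hsc.mono' ((hf.mul (Complex.continuous_ofReal.comp ((wt_cont T U).comp
      (continuous_sub_right b)))).aestronglyMeasurable) (Eventually.of_forall fun t => ?_)
    show ‖f t * (wt T U (t - b) : ℂ)‖ ≤ _
    rw [norm_mul, Complex.norm_real, Real.norm_of_nonneg (wt_pos _ _ _).le]
    have h5 := abs_le_scaled hU (by linarith) h.le t
    set x := (t - T) / U with hxd
    have h6 : Real.exp (-(3 / 4 * x ^ 2)) ≤ Real.exp (-(x ^ 2 / 2)) := by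
      apply Real.exp_le_exp.2
      nlinarith [sq_nonneg x]
    calc ‖f t‖ * wt T U (t - b) ≤ (C₀ * (1 + |t|) ^ N) * (Real.exp (3 * c ^ 2) *
          Real.exp (-(3 / 4 * x ^ 2))) := mul_le_mul (hfp t) (hwt2 t) (wt_pos _ _ _).le
            (by positivity)
      _ ≤ (C₀ * ((1 + T) * (1 + |x|)) ^ N) * (Real.exp (3 * c ^ 2) *
          Real.exp (-(x ^ 2 / 2))) := by gcongr
      _ = _ := by rw [mul_pow]; ring
  have hfi := mul_wt_int hi hf hfm
  have e1 : ∫ t, f (t + b) * (wt T U t : ℂ) = ∫ t, f t * (wt T U (t - b) : ℂ) := by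
    rw [← integral_add_right_eq_self (fun t => f t * (wt T U (t - b) : ℂ)) b]
    simp only [add_sub_cancel_right]
  rw [e1, ← integral_sub hgi hfi]
  refine (h1 U h _ κ hκ.le (fun t => ?_) (fun t ht => ?_)).trans ?_
  · rw [← mul_sub, norm_mul, ← Complex.ofReal_sub, Complex.norm_real, Real.norm_eq_abs]
    have a1 : |wt T U (t - b) - wt T U t| ≤ (Real.exp (3 * c ^ 2) + 1) *
        Real.exp (-(3 / 4 * ((t - T) / U) ^ 2)) := by
      rw [abs_le]
      have := hwt2 t
      have := wt_le T U t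
      have := wt_pos T U t
      have := wt_pos T U (t - b)
      have := Real.exp_pos (-(3 / 4 * ((t - T) / U) ^ 2))
      have : 0 < Real.exp (3 * c ^ 2) * Real.exp (-(3 / 4 * ((t - T) / U) ^ 2)) := by positivity
      constructor <;> linarith
    calc _ ≤ (C₀ * (1 + |t|) ^ N) * ((Real.exp (3 * c ^ 2) + 1) *
        Real.exp (-(3 / 4 * ((t - T) / U) ^ 2))) := mul_le_mul (hfp t) a1 (abs_nonneg _)
          (by positivity)
      _ = _ := by ring
  · rw [← mul_sub, norm_mul, ← Complex.ofReal_sub, Complex.norm_real, Real.norm_eq_abs]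
    set x := (t - T) / U with hxd
    have hxL : |x| ≤ δ * L := by
      rw [hxd, abs_div, abs_of_pos hU, div_le_iff₀ hU]
      calc |t - T| ≤ δ * (U * L) := ht
        _ = _ := by ring
    have a1 : wt T U (t - b) = wt T U t * Real.exp (2 * x * (b / U) - (b / U) ^ 2) := by
      unfold wt
      rw [hx, ← Real.exp_add]
      congr 1
      ring
    have a2 : |2 * x * (b / U) - (b / U) ^ 2| ≤ κ / 2 := by
      have b1 : |2 * x * (b / U)| ≤ 2 * (δ * L) * (|c| / L) := by
        rw [abs_mul, abs_mul, abs_of_pos (by norm_num : (0 : ℝ) < 2)]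
        gcongr
      have b2 : 2 * (δ * L) * (|c| / L) = 2 * δ * |c| := by field_simp
      have b3 : 2 * δ * |c| ≤ κ / 4 := by
        rw [hδd]
        have : |c| / (|c| + 1) ≤ 1 := by
          rw [div_le_one (by positivity)]
          linarith
        calc 2 * (κ / (8 * (|c| + 1))) * |c| = κ / 4 * (|c| / (|c| + 1)) := by
              field_simp
              ring
          _ ≤ κ / 4 * 1 := by gcongr
          _ = _ := mul_one _
      have b4 : (b / U) ^ 2 ≤ κ / 4 := by
        have : 2 * c ^ 2 / L = 2 * (c ^ 2 / L) := by ring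
        rw [this] at h4
        linarith
      have b5 := abs_le.1 (b1.trans (b2.le.trans b3))
      have b6 := sq_nonneg (b / U)
      rw [abs_le]
      constructor <;> linarith
    have a3 : |Real.exp (2 * x * (b / U) - (b / U) ^ 2) - 1| ≤ κ := by
      have := Real.abs_exp_sub_one_le (x := 2 * x * (b / U) - (b / U) ^ 2) (by linarith)
      linarith
    rw [a1]
    have a4 : |wt T U t * Real.exp (2 * x * (b / U) - (b / U) ^ 2) - wt T U t| =
        wt T U t * |Real.exp (2 * x * (b / U) - (b / U) ^ 2) - 1| := by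
      have : wt T U t * Real.exp (2 * x * (b / U) - (b / U) ^ 2) - wt T U t =
        wt T U t * (Real.exp (2 * x * (b / U) - (b / U) ^ 2) - 1) := by ring
      rw [this, abs_mul, abs_of_pos (wt_pos _ _ _)]
    rw [a4]
    have hw := wt_pos T U t
    calc ‖f t‖ * (wt T U t * |Real.exp (2 * x * (b / U) - (b / U) ^ 2) - 1|) ≤
        ‖f t‖ * (wt T U t * κ) := by gcongr
      _ = κ * (‖f t‖ * wt T U t) := by ring
      _ ≤ _ := mul_le_mul_of_nonneg_left (hfm t) hκ.le
  · apply mul_le_mul_of_nonneg_right _ hJ.le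
    have : C * κ ≤ C * (ε / (2 * C)) := mul_le_mul_of_nonneg_left (min_le_left _ _) hC.le
    have e2 : C * (ε / (2 * C)) = ε / 2 := by field_simp
    linarith

end Pool.Agent.Q80.TM
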