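import Pool.Agent.Q80.TM.Zet
import Pool.Agent.Q97.MM.XXb

/-!
Negligible differences; the functional equation and translations.
-/

set_option autoImplicit false

open Complex Filter Topology Set MeasureTheory Metric ComplexConjugate
open scoped ENNReal

namespace Pool.Agent.Q80.TM

open Q97.MM Pool.Agent.Q80.ZM

/-- functions which are small compared with the majorant near the centre -/
theorem small (k : ℕ) {A : ℝ} (hA : 0 < A) : ∃ C : ℝ, 0 < C ∧ ∀ (N : ℕ) (C₀ δ : ℝ), 0 ≤ C₀ →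
    0 < δ → ∀ ε : ℝ, 0 < ε → ∀ᶠ T : ℝ in atTop, ∀ U : ℝ, Adm T U → ∀ (g : ℝ → ℂ) (κ : ℝ),
      0 ≤ κ → (∀ t, ‖g t‖ ≤ C₀ * (1 + |t|) ^ N * Real.exp (-(3 / 4 * ((t - T) / U) ^ 2))) →
      (∀ t, |t - T| ≤ δ * (U * Real.log T) → ‖g t‖ ≤ κ * maj k A T U t) →
      ‖∫ t, g t‖ ≤ (C * κ + ε) * JJ k T U (1 / 2) := by
  obtain ⟨C, hC, hC'⟩ := ev k hA
  obtain ⟨c, hc, hc'⟩ := J_low k
  refine ⟨C, hC, fun N C₀ δ hC₀ hδ ε hε => ?_⟩
  have hK := KK_nonneg N
  have htt := ((tail_tendsto N (η := δ / √2) (by positivity)).const_mul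
    (C₀ * KK N * c)).eventually (gt_mem_nhds (show C₀ * KK N * c * 0 < ε by rw [mul_zero]; exact hε))
  filter_upwards [hC', hc', htt] with T h1 h2 h3 U h g κ hκ hg hg'
  obtain ⟨hr, hL, hJ, hi, hI⟩ := h1 U h
  have hJc := (h2 U h).2
  have hL1 := h.log
  have hU := h.pos
  have hT : 0 ≤ T := by linarith [h.1]
  set L := Real.log T with hLdef
  set E := Real.exp (-((δ / √2 * L) ^ 2 / 2)) with hE
  have hE2 : (δ / √2 * L) ^ 2 / 2 = δ ^ 2 * L ^ 2 / 4 := by
    rw [mul_pow, div_pow, Real.sq_sqrt (by norm_num)]; ring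
  have hsc := scaled_integrable N T hU
  have hpt : ∀ t, ‖g t‖ ≤ κ * maj k A T U t + C₀ * (1 + T) ^ N * E *
      ((1 + |(t - T) / U|) ^ N * Real.exp (-(((t - T) / U) ^ 2 / 2))) := by
    intro t
    have hm := maj_nonneg k (A := A) hT U t
    rcases le_or_gt |t - T| (δ * (U * L)) with ht | ht
    · have h4 := hg' t ht
      have : 0 ≤ C₀ * (1 + T) ^ N * E *
        ((1 + |(t - T) / U|) ^ N * Real.exp (-(((t - T) / U) ^ 2 / 2))) := by positivity
      linarith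
    · have h4 := hg t
      have h5 := abs_le_scaled hU hT h.le t
      set x := (t - T) / U with hx
      have h6 : δ * L ≤ |x| := by
        rw [hx, abs_div, abs_of_pos hU, le_div_iff₀ hU]
        calc δ * L * U = δ * (U * L) := by ring
          _ ≤ _ := ht.le
      have h7 : δ ^ 2 * L ^ 2 ≤ x ^ 2 := by
        rw [← sq_abs x, ← mul_pow]
        exact pow_le_pow_left₀ (by positivity) h6 2
      have h8 : Real.exp (-(3 / 4 * x ^ 2)) ≤ E * Real.exp (-(x ^ 2 / 2)) := by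
        rw [hE, ← Real.exp_add, hE2]
        apply Real.exp_le_exp.2
        linarith
      have h9 : C₀ * (1 + |t|) ^ N * Real.exp (-(3 / 4 * x ^ 2)) ≤
          C₀ * ((1 + T) * (1 + |x|)) ^ N * (E * Real.exp (-(x ^ 2 / 2))) := by
        gcongr
      have h10 : C₀ * ((1 + T) * (1 + |x|)) ^ N * (E * Real.exp (-(x ^ 2 / 2))) =
          C₀ * (1 + T) ^ N * E * ((1 + |x|) ^ N * Real.exp (-(x ^ 2 / 2))) := by
        rw [mul_pow]; ring
      have : 0 ≤ κ * maj k A T U t := mul_nonneg hκ hm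
      linarith
  have h4 := norm_integral_le_of_norm_le ((hi.const_mul κ).add (hsc.const_mul
    (C₀ * (1 + T) ^ N * E))) (Eventually.of_forall hpt)
  refine h4.trans ?_
  have h5 := integral_add (hi.const_mul κ) (hsc.const_mul (C₀ * (1 + T) ^ N * E))
  simp only [Pi.add_apply] at h5 ⊢
  rw [h5, integral_const_mul, integral_const_mul, scaled_integral N T hU]
  have h6 : κ * ∫ y, maj k A T U y ≤ κ * (C * JJ k T U (1 / 2)) := mul_le_mul_of_nonneg_left hI hκ
  have h7 : C₀ * (1 + T) ^ N * E * (U * KK N) ≤ ε * JJ k T U (1 / 2) := by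
    calc C₀ * (1 + T) ^ N * E * (U * KK N)
        ≤ C₀ * (1 + T) ^ N * E * ((c * JJ k T U (1 / 2)) * KK N) := by gcongr
      _ = C₀ * KK N * c * ((1 + T) ^ N * E) * JJ k T U (1 / 2) := by ring
      _ ≤ _ := by
        apply mul_le_mul_of_nonneg_right _ hJ.le
        exact h3.le
  nlinarith

/-- growth near the critical line -/
theorem zeta_poly {s : ℂ} {t : ℝ} (hs : s ∈ closedBall (cp t) (1 / 8)) :
    ‖riemannZeta s‖ ≤ 720 * (1 + |t|) ^ 2 := by
  obtain ⟨h1, h2⟩ := cp_re_im hs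
  have h1' := abs_le.1 h1
  have hse : s = (s.re : ℂ) + s.im * I := (Complex.re_add_im s).symm
  have hs1 : s ≠ 1 := by
    intro hc
    rw [hc, one_re] at h1'
    linarith
  have h3 := Z1_growth (x := s.re) (y := s.im) (by linarith) (by linarith)
  rw [← hse, Z1_of_ne hs1, norm_mul] at h3
  have h4 : 1 / 4 ≤ ‖s - 1‖ := by
    have h5 := Complex.abs_re_le_norm (s - 1)
    rw [sub_re, one_re] at h5
    refine le_trans ?_ h5
    rw [abs_of_nonpos (by linarith)]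
    linarith
  have h6 : |s.im| ≤ |t| + 1 / 8 := by
    have := abs_add_le (s.im - t) t
    rw [sub_add_cancel] at this
    linarith
  have h7 : 1 + |s.im| ≤ 2 * (1 + |t|) := by
    have := abs_nonneg t
    linarith
  have h8 := norm_nonneg (riemannZeta s)
  have h9 : (1 + |s.im|) ^ 2 ≤ (2 * (1 + |t|)) ^ 2 := pow_le_pow_left₀ (by positivity) h7 2
  nlinarith

theorem zp_poly {A T t : ℝ} {z : ℂ} (hL : 1 ≤ Real.log T) (hr : A / Real.log T ≤ 1 / 8)
    (hz : ‖z‖ ≤ A) : ‖zp T t z‖ ≤ 720 * (1 + |t|) ^ 2 ∧ ‖zm T t z‖ ≤ 720 * (1 + |t|) ^ 2 := by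
  constructor
  · exact zeta_poly (closedBall_subset_closedBall hr (zp_mem hL hz))
  · rw [zm_conj, RCLike.norm_conj]
    exact zeta_poly (closedBall_subset_closedBall hr (zp_mem hL (by rwa [RCLike.norm_conj])))

theorem ff_poly (k : ℕ) {A T t : ℝ} {y : Fin k ⊕ Fin k → ℂ} (hL : 1 ≤ Real.log T)
    (hr : A / Real.log T ≤ 1 / 8) (hy : ∀ i, ‖y i‖ ≤ A) :
    ‖ff k T t y‖ ≤ 720 ^ (2 * k) * (1 + |t|) ^ (4 * k) := by
  rw [ff_norm]
  have h1 : ∏ i, Sum.elim (fun i => ‖zp T t (y (Sum.inl i))‖)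
      (fun i => ‖zm T t (y (Sum.inr i))‖) i ≤ ∏ _i : Fin k ⊕ Fin k, 720 * (1 + |t|) ^ 2 := by
    refine Finset.prod_le_prod ?_ ?_
    · rintro (i | i) - <;> exact norm_nonneg _
    · rintro (i | i) -
      · exact (zp_poly hL hr (hy _)).1
      · exact (zp_poly hL hr (hy _)).2
  refine h1.trans (le_of_eq ?_)
  rw [Finset.prod_const, Finset.card_univ, Fintype.card_sum, Fintype.card_fin, ← two_mul, mul_pow,
    ← pow_mul]
  congr 2
  ring

theorem prod_sub {ι : Type*} (s : Finset ι) {a b : ι → ℂ} {B ε : ℝ} (hB : 1 ≤ B) (hε : 0 ≤ ε)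
    (ha : ∀ i, ‖a i‖ ≤ B) (hb : ∀ i, ‖b i‖ ≤ B) (hab : ∀ i, ‖a i - b i‖ ≤ ε) :
    ‖∏ i ∈ s, a i‖ ≤ B ^ s.card ∧ ‖∏ i ∈ s, b i‖ ≤ B ^ s.card ∧
      ‖(∏ i ∈ s, a i) - ∏ i ∈ s, b i‖ ≤ s.card * B ^ s.card * ε := by
  classical
  induction s using Finset.induction_on with
  | empty => simp
  | insert c s hc ih =>
    obtain ⟨h1, h2, h3⟩ := ih
    rw [Finset.prod_insert hc, Finset.prod_insert hc, Finset.card_insert_of_notMem hc, pow_succ']
    have hBn : 0 < B ^ s.card := by positivity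
    refine ⟨?_, ?_, ?_⟩
    · rw [norm_mul]
      exact mul_le_mul (ha c) h1 (norm_nonneg _) (by positivity)
    · rw [norm_mul]
      exact mul_le_mul (hb c) h2 (norm_nonneg _) (by positivity)
    · have e : a c * ∏ i ∈ s, a i - b c * ∏ i ∈ s, b i =
          a c * (∏ i ∈ s, a i - ∏ i ∈ s, b i) + (a c - b c) * ∏ i ∈ s, b i := by ring
      rw [e]
      refine (norm_add_le _ _).trans ?_
      rw [norm_mul, norm_mul]
      have h4 : ‖a c‖ * ‖∏ i ∈ s, a i - ∏ i ∈ s, b i‖ ≤ B * (s.card * B ^ s.card * ε) :=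
        mul_le_mul (ha c) h3 (norm_nonneg _) (by positivity)
      have h5 : ‖a c - b c‖ * ‖∏ i ∈ s, b i‖ ≤ ε * B ^ s.card :=
        mul_le_mul (hab c) h2 (norm_nonneg _) hε
      have h6 : ε * B ^ s.card ≤ ε * (B * B ^ s.card) := by
        apply mul_le_mul_of_nonneg_left _ hε
        nlinarith
      push_cast
      nlinarith

end Pool.Agent.Q80.TM
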