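import Pool.Agent.Q80.TM.Abs
import Pool.Agent.Q80.ZM.Glo3
import Pool.Agent.HopfPinch.AnS1

/-!
Products of shifted values of the zeta function.
-/

set_option autoImplicit false

open Complex Filter Topology Set MeasureTheory Metric ComplexConjugate
open scoped ENNReal

namespace Pool.Agent.Q80.TM

open Q97.MM Pool.Agent.Q80.ZM

/-- `ζ(1/2 + i (t + z / log T))` -/
noncomputable def zp (T t : ℝ) (z : ℂ) : ℂ := riemannZeta (1 / 2 + (t + z / Real.log T) * I)

/-- `ζ(1/2 - i (t + z / log T))` -/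
noncomputable def zm (T t : ℝ) (z : ℂ) : ℂ := riemannZeta (1 / 2 - (t + z / Real.log T) * I)

/-- the product of the shifted values -/
noncomputable def ff (k : ℕ) (T t : ℝ) (y : Fin k ⊕ Fin k → ℂ) : ℂ :=
  (∏ i, zp T t (y (Sum.inl i))) * ∏ i, zm T t (y (Sum.inr i))

/-- the shifted moment -/
noncomputable def SS (k : ℕ) (T U : ℝ) (y : Fin k ⊕ Fin k → ℂ) : ℂ :=
  ∫ t : ℝ, ff k T t y * (wt T U t : ℂ)

theorem zm_conj (T t : ℝ) (z : ℂ) : zm T t z = conj (zp T t (conj z)) := by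
  unfold zm zp
  rw [← riemannZeta_conj]
  congr 1
  simp only [map_add, map_mul, map_div₀, Complex.conj_conj, Complex.conj_ofReal, Complex.conj_I,
    map_one, map_ofNat]
  ring

theorem zp_mem {A T t : ℝ} {z : ℂ} (hL : 1 ≤ Real.log T) (hz : ‖z‖ ≤ A) :
    1 / 2 + (t + z / Real.log T) * I ∈ closedBall (cp t) (A / Real.log T) := by
  rw [mem_closedBall, dist_eq_norm]
  have e : (1 / 2 + (t + z / Real.log T) * I - cp t : ℂ) = z / Real.log T * I := by
    unfold cp; ring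
  rw [e, norm_mul, Complex.norm_I, mul_one, norm_div, Complex.norm_real,
    Real.norm_of_nonneg (by linarith)]
  gcongr

theorem zp_bd (k : ℕ) {A T U : ℝ} (hA : 0 < A) (h : Adm T U) (hr : A / Real.log T ≤ 1 / 8)
    (hL : 8 * A ≤ Real.log T ^ 2) (t : ℝ) {z : ℂ} (hz : ‖z‖ ≤ A) :
    ‖zp T t z‖ ^ (2 * k) * wt T U t ≤ maj k A T U t := by
  have hL1 := h.log
  refine maj_bd k hA h hr hL (zp_mem hL1 hz) ?_
  rw [sub_self, abs_zero]
  positivity

theorem zm_bd (k : ℕ) {A T U : ℝ} (hA : 0 < A) (h : Adm T U) (hr : A / Real.log T ≤ 1 / 8)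
    (hL : 8 * A ≤ Real.log T ^ 2) (t : ℝ) {z : ℂ} (hz : ‖z‖ ≤ A) :
    ‖zm T t z‖ ^ (2 * k) * wt T U t ≤ maj k A T U t := by
  rw [zm_conj, RCLike.norm_conj]
  exact zp_bd k hA h hr hL t (by rwa [RCLike.norm_conj])

/-- products of `2k` factors -/
theorem prod_bd {k : ℕ} (hk : 1 ≤ k) {a : Fin k ⊕ Fin k → ℝ} (ha : ∀ i, 0 ≤ a i) {w m : ℝ}
    (hw : 0 ≤ w) (h : ∀ i, a i ^ (2 * k) * w ≤ m) : (∏ i, a i) * w ≤ m := by
  have : Nonempty (Fin k ⊕ Fin k) := ⟨Sum.inl ⟨0, hk⟩⟩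
  obtain ⟨i₀, hi⟩ := Finite.exists_max a
  refine le_trans ?_ (h i₀)
  apply mul_le_mul_of_nonneg_right _ hw
  have h1 : ∏ i, a i ≤ ∏ _i : Fin k ⊕ Fin k, a i₀ :=
    Finset.prod_le_prod (fun i _ => ha i) fun i _ => hi i
  refine h1.trans (le_of_eq ?_)
  rw [Finset.prod_const, Finset.card_univ, Fintype.card_sum, Fintype.card_fin]
  congr 1
  ring

theorem ff_norm (k : ℕ) (T t : ℝ) (y : Fin k ⊕ Fin k → ℂ) : ‖ff k T t y‖ =
    ∏ i, Sum.elim (fun i => ‖zp T t (y (Sum.inl i))‖) (fun i => ‖zm T t (y (Sum.inr i))‖) i := by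
  unfold ff
  rw [norm_mul, norm_prod, norm_prod, Fintype.prod_sum_type]
  rfl

theorem ff_bd {k : ℕ} (hk : 1 ≤ k) {A T U : ℝ} (hA : 0 < A) (h : Adm T U)
    (hr : A / Real.log T ≤ 1 / 8) (hL : 8 * A ≤ Real.log T ^ 2) (t : ℝ) {y : Fin k ⊕ Fin k → ℂ}
    (hy : ∀ i, ‖y i‖ ≤ A) : ‖ff k T t y‖ * wt T U t ≤ maj k A T U t := by
  rw [ff_norm]
  refine prod_bd hk ?_ (wt_pos _ _ _).le ?_
  · rintro (i | i) <;> exact norm_nonneg _
  · rintro (i | i)
    · exact zp_bd k hA h hr hL t (hy _)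
    · exact zm_bd k hA h hr hL t (hy _)

theorem arg_ne {A T t : ℝ} {z : ℂ} (hL : 1 ≤ Real.log T) (hr : A / Real.log T ≤ 1 / 8)
    (hz : ‖z‖ ≤ A) : (1 / 2 + (t + z / Real.log T) * I : ℂ) ≠ 1 ∧
      (1 / 2 - (t + z / Real.log T) * I : ℂ) ≠ 1 := by
  have h1 : ‖z / (Real.log T : ℂ)‖ ≤ 1 / 8 := by
    rw [norm_div, Complex.norm_real, Real.norm_of_nonneg (by linarith)]
    refine le_trans ?_ hr
    gcongr
  have h2 := (Complex.abs_im_le_norm _).trans h1
  set q := z / (Real.log T : ℂ) with hq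
  have h3 := abs_le.1 h2
  constructor <;> intro hc <;> have h4 := congrArg Complex.re hc <;>
    simp at h4 <;> linarith

theorem zp_diff {A T t : ℝ} {z : ℂ} (hL : 1 ≤ Real.log T) (hr : A / Real.log T ≤ 1 / 8)
    (hz : ‖z‖ ≤ A) : DifferentiableAt ℂ (zp T t) z ∧ DifferentiableAt ℂ (zm T t) z := by
  obtain ⟨h1, h2⟩ := arg_ne (t := t) hL hr hz
  constructor
  · exact (differentiableAt_riemannZeta h1).comp z (by fun_prop)
  · exact (differentiableAt_riemannZeta h2).comp z (by fun_prop)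

theorem zp_cont {A T : ℝ} {z : ℂ} (hL : 1 ≤ Real.log T) (hr : A / Real.log T ≤ 1 / 8)
    (hz : ‖z‖ ≤ A) : Continuous (fun t => zp T t z) ∧ Continuous (fun t => zm T t z) := by
  constructor
  · rw [continuous_iff_continuousAt]
    intro t
    obtain ⟨h1, h2⟩ := arg_ne (t := t) hL hr hz
    have h3 : ContinuousAt (fun t : ℝ => (1 / 2 + (t + z / Real.log T) * I : ℂ)) t := by fun_prop
    exact ContinuousAt.comp (g := riemannZeta) (differentiableAt_riemannZeta h1).continuousAt h3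
  · rw [continuous_iff_continuousAt]
    intro t
    obtain ⟨h1, h2⟩ := arg_ne (t := t) hL hr hz
    have h3 : ContinuousAt (fun t : ℝ => (1 / 2 - (t + z / Real.log T) * I : ℂ)) t := by fun_prop
    exact ContinuousAt.comp (g := riemannZeta) (differentiableAt_riemannZeta h2).continuousAt h3

theorem ff_cont (k : ℕ) {A T : ℝ} {y : Fin k ⊕ Fin k → ℂ} (hL : 1 ≤ Real.log T)
    (hr : A / Real.log T ≤ 1 / 8) (hy : ∀ i, ‖y i‖ ≤ A) : Continuous (fun t => ff k T t y) := by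
  unfold ff
  refine Continuous.mul ?_ ?_
  · exact continuous_finsetProd _ fun i _ => (zp_cont hL hr (hy _)).1
  · exact continuous_finsetProd _ fun i _ => (zp_cont hL hr (hy _)).2

theorem diff_prod {E ι : Type*} [NormedAddCommGroup E] [NormedSpace ℂ E] (s : Finset ι)
    {f : ι → E → ℂ} {x : E} (h : ∀ i ∈ s, DifferentiableAt ℂ (f i) x) :
    DifferentiableAt ℂ (fun x => ∏ i ∈ s, f i x) x := by
  classical
  induction s using Finset.induction_on with
  | empty => simp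
  | insert a s ha ih =>
    simp only [Finset.prod_insert ha]
    exact (h a (Finset.mem_insert_self a s)).mul
      (ih fun i hi => h i (Finset.mem_insert_of_mem hi))

theorem ff_diff (k : ℕ) {A T t : ℝ} (hL : 1 ≤ Real.log T) (hr : A / Real.log T ≤ 1 / 8) :
    DifferentiableOn ℂ (ff k T t) (ball 0 A) := by
  intro y hy
  rw [mem_ball_zero_iff] at hy
  have hy' : ∀ i, ‖y i‖ ≤ A := fun i => (norm_le_pi_norm y i).trans hy.le
  apply DifferentiableAt.differentiableWithinAt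
  unfold ff
  refine DifferentiableAt.mul ?_ ?_
  · refine diff_prod _ fun i _ => ?_
    have h1 : DifferentiableAt ℂ (fun y : Fin k ⊕ Fin k → ℂ => y (Sum.inl i)) y :=
      differentiableAt_apply _ _
    exact DifferentiableAt.comp (g := zp T t) y ((zp_diff hL hr (hy' (Sum.inl i))).1) h1
  · refine diff_prod _ fun i _ => ?_
    have h1 : DifferentiableAt ℂ (fun y : Fin k ⊕ Fin k → ℂ => y (Sum.inr i)) y :=
      differentiableAt_apply _ _
    exact DifferentiableAt.comp (g := zm T t) y ((zp_diff hL hr (hy' (Sum.inr i))).2) h1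

theorem wt_cont (T U : ℝ) : Continuous (wt T U) := by unfold wt; fun_prop

theorem maj_cont (k : ℕ) (A T U : ℝ) : Continuous (maj k A T U) := by
  unfold maj tl
  refine Continuous.add ?_ (by fun_prop)
  exact continuous_const.mul (continuous_const.mul (QQ_cont (FF_differentiable k T U).continuous _))

theorem maj_nonneg (k : ℕ) {A T : ℝ} (hT : 0 ≤ T) (U y : ℝ) : 0 ≤ maj k A T U y := by
  unfold maj
  have := QQ_nonneg (FF k T U) (2 * (A / Real.log T)) y
  have := tl_nonneg k hT U y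
  positivity

theorem JJ_pos (k : ℕ) : ∀ᶠ T : ℝ in atTop, ∀ U : ℝ, Adm T U → 0 < JJ k T U (1 / 2) := by
  obtain ⟨c, hc, hc'⟩ := J_low k
  filter_upwards [hc'] with T h U hA
  have h1 := (h U hA).2
  have h2 := hA.2.1
  by_contra hcon
  push Not at hcon
  nlinarith

/-- the majorant has a bounded relative integral -/
theorem maj_I (k : ℕ) {A : ℝ} (hA : 0 < A) : ∃ C : ℝ, 0 < C ∧ ∀ᶠ T : ℝ in atTop, ∀ U : ℝ,
    Adm T U → Integrable (maj k A T U) ∧ ∫ y, maj k A T U y ≤ C * JJ k T U (1 / 2) := by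
  obtain ⟨C, hC, hC'⟩ := maj_int k hA
  refine ⟨C, hC, ?_⟩
  filter_upwards [hC'] with T h U hAd
  have hT : 0 ≤ T := by linarith [hAd.1]
  have h1 := h U hAd
  have hn : ∀ y, 0 ≤ maj k A T U y := fun y => maj_nonneg k hT U y
  have hi : Integrable (maj k A T U) := by
    refine ⟨(maj_cont k A T U).aestronglyMeasurable, ?_⟩
    rw [hasFiniteIntegral_iff_ofReal (Eventually.of_forall hn)]
    exact lt_of_le_of_lt h1 ENNReal.ofReal_lt_top
  refine ⟨hi, ?_⟩
  rw [← ofReal_integral_eq_lintegral_ofReal hi (Eventually.of_forall hn)] at h1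
  exact (ENNReal.ofReal_le_ofReal_iff (mul_nonneg hC.le (JJ_nonneg k T U _))).1 h1

/-- everything that is used about a height -/
theorem ev (k : ℕ) {A : ℝ} (hA : 0 < A) : ∃ C : ℝ, 0 < C ∧ ∀ᶠ T : ℝ in atTop, ∀ U : ℝ,
    Adm T U → A / Real.log T ≤ 1 / 8 ∧ 8 * A ≤ Real.log T ^ 2 ∧ 0 < JJ k T U (1 / 2) ∧
      Integrable (maj k A T U) ∧ ∫ y, maj k A T U y ≤ C * JJ k T U (1 / 2) := by
  obtain ⟨C, hC, hC'⟩ := maj_I k hA
  refine ⟨C, hC, ?_⟩
  filter_upwards [hC', JJ_pos k, Real.tendsto_log_atTop.eventually_ge_atTop (1 + 8 * A)]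
    with T h1 h2 h3 U h
  have hL := h.log
  obtain ⟨h4, h5⟩ := h1 U h
  refine ⟨?_, by nlinarith, h2 U h, h4, h5⟩
  rw [div_le_iff₀ (by linarith)]
  linarith

theorem SS_int {k : ℕ} (hk : 1 ≤ k) {A T U : ℝ} (hA : 0 < A) (h : Adm T U)
    (hr : A / Real.log T ≤ 1 / 8) (hL : 8 * A ≤ Real.log T ^ 2) (hi : Integrable (maj k A T U))
    {y : Fin k ⊕ Fin k → ℂ} (hy : ∀ i, ‖y i‖ ≤ A) :
    Integrable (fun t => ff k T t y * (wt T U t : ℂ)) := by
  refine hi.mono' (((ff_cont k h.log hr hy).mul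
    (Complex.continuous_ofReal.comp (wt_cont T U))).aestronglyMeasurable)
    (Eventually.of_forall fun t => ?_)
  show ‖ff k T t y * (wt T U t : ℂ)‖ ≤ _
  rw [norm_mul, Complex.norm_real, Real.norm_of_nonneg (wt_pos _ _ _).le]
  exact ff_bd hk hA h hr hL t hy

theorem SS_good {k : ℕ} (hk : 1 ≤ k) {A : ℝ} (hA : 0 < A) : ∃ C : ℝ, 0 < C ∧ ∀ᶠ T : ℝ in atTop,
    ∀ U : ℝ, Adm T U → DifferentiableOn ℂ (SS k T U) (ball 0 A) ∧
      ∀ y ∈ ball (0 : Fin k ⊕ Fin k → ℂ) A, ‖SS k T U y‖ ≤ C * JJ k T U (1 / 2) := by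
  obtain ⟨C, hC, hC'⟩ := ev k hA
  refine ⟨C, hC, ?_⟩
  filter_upwards [hC'] with T h1 U h
  obtain ⟨hr, hL, -, hi, hI⟩ := h1 U h
  have hy' : ∀ y ∈ ball (0 : Fin k ⊕ Fin k → ℂ) A, ∀ i, ‖y i‖ ≤ A := fun y hy i =>
    (norm_le_pi_norm y i).trans (mem_ball_zero_iff.1 hy).le
  have hb : ∀ y ∈ ball (0 : Fin k ⊕ Fin k → ℂ) A, ∀ t, ‖ff k T t y * (wt T U t : ℂ)‖ ≤
      maj k A T U t := by
    intro y hy t
    rw [norm_mul, Complex.norm_real, Real.norm_of_nonneg (wt_pos _ _ _).le]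
    exact ff_bd hk hA h hr hL t (hy' y hy)
  constructor
  · refine Pool.Agent.HP.differentiableOn_integral volume
      (fun t y => ff k T t y * (wt T U t : ℂ)) _ isOpen_ball (fun y hy => ?_) (fun t => ?_)
      (maj k A T U) hi (fun t y hy => hb y hy t)
    · exact (SS_int hk hA h hr hL hi (hy' y hy)).aestronglyMeasurable
    · exact (ff_diff k h.log hr).mul (differentiableOn_const _)
  · intro y hy
    refine (norm_integral_le_of_norm_le hi (Eventually.of_forall (hb y hy))).trans hI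

end Pool.Agent.Q80.TM
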